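import Pool.Agent.Lib.MP_dd1a29_co.Core

/-!
The certificate that no Dantzig path visits all sixteen vertices.
-/

namespace Pool.Agent.Lib.MP_dd1a29_co.CertData

def c0 : Cert :=
  .node .bad
    .bad
    .bad
    .bad
    .bad
    .bad
    (.sgn true 2 3 2 1 0)
    .bad

def c1 : Cert :=
  .node .bad
    .bad
    c0
    .bad
    .bad
    .bad
    (.sgn true 1 3 2 1 0)
    .bad

def c2 : Cert :=
  .node .bad
    c1
    (.lp [.g false 0 1 2 0 1, .g false 1 0 1 0 2, .d 0 4 8, .d 1 9 5])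
    .bad
    .bad
    .bad
    (.sgn true 0 3 2 1 0)
    .bad

def c3 : Cert :=
  .node .bad
    .bad
    .bad
    .bad
    .bad
    .bad
    (.sgn true 2 3 2 1 0)
    .bad

def c4 : Cert :=
  .node .bad
    .bad
    c3
    .bad
    .bad
    .bad
    (.sgn true 0 1 2 1 0)
    .bad

def c5 : Cert :=
  .node .bad
    .bad
    .bad
    .bad
    .bad
    .bad
    (.sgn true 0 1 2 1 0)
    .bad

def c6 : Cert :=
  .node c5
    .bad
    .bad
    .bad
    .bad
    .bad
    (.sgn true 2 3 2 1 0)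
    .bad

def c7 : Cert :=
  .node c4
    .bad
    c6
    .bad
    .bad
    .bad
    (.sgn true 1 3 2 1 0)
    .bad

def c8 : Cert :=
  .node .bad
    (.lp [.g false 0 1 2 0 1, .g false 0 1 3 0 2, .g false 0 2 0 2 1, .g false 2 0 1 3 0,
      .g true 1 3 2 0 1, .g true 3 0 0 1 2, .d 0 4 8, .d 4 8 6, .d 13 14 5])
    (.lp [.g false 0 1 2 0 1, .g false 0 1 3 0 2, .g false 0 1 1 3 2, .g false 0 2 0 3 1,
      .g false 2 0 1 0 2, .g false 2 0 2 3 0, .g true 2 3 2 0 1, .g true 3 0 0 1 2, .d 0 4 12,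
      .d 8 12 10, .d 13 14 9, .d 2 10 6])
    .bad
    .bad
    (.lp [.g false 0 1 2 0 1, .g false 0 1 0 2 1, .g false 0 1 3 0 2, .g false 0 1 1 3 2,
      .g false 0 2 0 3 1, .g false 1 0 1 3 0, .g true 0 2 0 1 2, .g true 0 3 2 0 1,
      .g true 3 0 0 1 2, .d 0 4 12, .d 4 8 6, .d 8 12 9, .d 13 14 5, .d 2 1 10])
    .bad
    (.sgn true 0 3 3 2 0)

def c9 : Cert :=
  .node c8
    (.lp [.g false 0 1 2 0 1, .g false 0 1 3 0 2, .g false 0 2 1 3 2, .g true 1 3 2 0 1,
      .g true 3 1 0 1 2, .d 0 4 12, .d 8 12 10, .d 13 14 5])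
    (.lp [.g false 0 1 3 0 2, .g false 0 2 2 0 1, .g false 2 0 1 3 2, .g true 2 3 2 0 1,
      .g true 3 2 0 1 2, .d 0 4 12, .d 8 12 10, .d 13 14 9, .d 14 10 6])
    .bad
    .bad
    .bad
    .bad
    (.lp [.g false 0 1 2 0 1, .g false 0 1 3 0 2, .g false 0 1 1 3 2, .g true 3 1 0 2 3,
      .g true 3 1 3 1 2, .d 0 4 12, .d 8 12 9, .d 12 13 14, .d 13 14 15, .d 14 15 6])

def c10 : Cert :=
  .node c2
    c7
    (.lp [.g false 0 1 2 0 1, .g false 1 0 1 3 2, .d 0 4 8, .d 13 9 5])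
    .bad
    .bad
    .bad
    c9
    .bad

def c11 : Cert :=
  .node .bad
    .bad
    .bad
    .bad
    .bad
    c10
    .bad
    .bad

def c12 : Cert :=
  .node (.sgn true 0 2 3 1 0)
    (.sgn true 1 2 3 1 0)
    (.lp [.g false 0 1 2 0 1, .g false 0 1 2 3 1, .g false 0 2 3 1 2, .g false 1 0 1 3 0,
      .g false 1 0 0 3 2, .g false 1 2 1 2 0, .g false 1 2 0 3 1, .g false 1 3 2 3 1,
      .g true 2 3 1 2 0, .g true 2 3 3 1 2, .g true 3 0 1 2 3, .g true 3 2 0 2 1, .d 0 4 8,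
      .d 4 8 5, .d 8 9 12, .d 9 1 5, .d 5 13 7, .d 14 15 10, .d 15 11 3])
    .bad
    .bad
    .bad
    .bad
    .bad

def c13 : Cert :=
  .node (.sgn true 0 2 2 1 0)
    (.sgn true 1 2 2 1 0)
    (.lp [.g false 0 1 2 0 1, .g false 1 0 1 3 0, .g false 1 0 0 3 2, .g false 1 2 1 2 0,
      .g false 1 2 0 3 1, .g false 1 2 2 3 0, .g false 2 1 0 3 2, .d 0 4 8, .d 9 1 5, .d 14 10 2])
    .bad
    .bad
    .bad
    .bad
    c12

def c14 : Cert :=
  .node .bad
    .bad
    .bad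
    .bad
    .bad
    .bad
    c13
    .bad

def c15 : Cert :=
  .node .bad
    .bad
    .bad
    .bad
    c14
    .bad
    (.sgn true 3 0 2 1 0)
    .bad

def c16 : Cert :=
  .node .bad
    .bad
    .bad
    c15
    .bad
    .bad
    (.sgn true 1 2 2 1 0)
    .bad

def c17 : Cert :=
  .node .bad
    c16
    .bad
    (.sgn false 1 0 3 1 0)
    .bad
    .bad
    (.sgn true 0 2 2 1 0)
    .bad

def c18 : Cert :=
  .node (.sgn true 0 1 3 1 0)
    (.sgn true 1 2 3 1 0)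
    (.lp [.g false 0 1 2 0 1, .g false 0 1 1 3 0, .g false 0 2 3 0 1, .g false 0 2 3 1 2,
      .g false 0 2 1 3 2, .g false 1 3 2 3 0, .g true 2 3 1 3 0, .g true 2 3 3 0 2,
      .g true 2 3 3 0 2, .g true 3 1 0 2 1, .g true 3 1 0 2 1, .g true 3 1 1 2 3,
      .g true 3 1 1 2 3, .d 0 4 8, .d 0 4 1, .d 4 8 12, .d 8 9 11, .d 1 13 3, .d 14 15 10,
      .d 14 15 10, .d 15 11 7, .d 15 11 7])
    .bad
    .bad
    .bad
    .bad
    .bad

def c19 : Cert :=
  .node (.sgn true 0 1 2 1 0)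
    (.sgn true 1 2 2 1 0)
    (.lp [.g false 0 1 2 0 1, .g false 1 0 1 3 2, .g false 1 2 2 3 1, .g false 2 1 1 3 2,
      .d 0 4 8, .d 14 10 6])
    .bad
    .bad
    .bad
    .bad
    c18

def c20 : Cert :=
  .node .bad
    .bad
    .bad
    .bad
    .bad
    .bad
    c19
    .bad

def c21 : Cert :=
  .node .bad
    .bad
    .bad
    .bad
    c20
    .bad
    (.sgn true 3 0 2 1 0)
    .bad

def c22 : Cert :=
  .node .bad
    .bad
    .bad
    c21
    .bad
    .bad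
    (.sgn true 0 1 2 1 0)
    .bad

def c23 : Cert :=
  .node c22
    .bad
    .bad
    (.sgn false 1 0 3 1 0)
    .bad
    .bad
    (.sgn true 1 2 2 1 0)
    .bad

def c24 : Cert :=
  .node .bad
    (.lp [.g false 0 1 2 0 1, .g false 2 0 1 2 0, .g true 1 2 2 0 1, .g true 2 0 0 1 2,
      .d 0 4 2, .d 9 10 5])
    .bad
    (.sgn false 2 0 3 1 0)
    .bad
    (.lp [.g false 0 1 2 0 1, .g false 0 2 0 2 1, .g false 0 2 0 2 1, .g false 2 0 1 2 0,
      .g true 0 1 0 1 2, .g true 0 2 2 0 1, .g true 2 0 0 1 2, .d 0 4 8, .d 0 4 8, .d 4 8 5,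
      .d 4 8 6, .d 9 10 1, .d 10 2 6, .d 2 1 6])
    .bad
    (.sgn true 0 2 3 2 0)

def c25 : Cert :=
  .node c24
    (.lp [.g false 0 1 2 0 1, .g true 1 2 2 0 1, .g true 2 1 0 1 2, .d 0 4 8, .d 4 8 6,
      .d 9 10 5])
    .bad
    (.sgn false 2 0 3 2 0)
    .bad
    .bad
    .bad
    (.lp [.g false 0 1 2 0 1, .g true 2 1 0 1 2, .g true 2 3 2 0 1, .g true 2 3 1 3 2, .d 0 4 8,
      .d 4 8 5, .d 8 9 10, .d 9 10 11, .d 10 11 6])

def c26 : Cert :=
  .node c17
    c23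
    .bad
    (.sgn false 1 0 3 2 0)
    .bad
    .bad
    c25
    .bad

def c27 : Cert :=
  .node .bad
    .bad
    .bad
    c11
    .bad
    c26
    .bad
    .bad

def c28 : Cert :=
  .node .bad
    .bad
    .bad
    .bad
    .bad
    .bad
    (.sgn true 2 3 2 1 0)
    .bad

def c29 : Cert :=
  .node .bad
    .bad
    .bad
    .bad
    .bad
    .bad
    .bad
    (.sgn true 2 3 3 1 0)

def c30 : Cert :=
  .node .bad
    .bad
    .bad
    .bad
    c29
    .bad
    .bad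
    (.sgn true 2 0 3 1 0)

def c31 : Cert :=
  .node .bad
    .bad
    c30
    .bad
    .bad
    .bad
    .bad
    (.sgn true 0 1 3 1 0)

def c32 : Cert :=
  .node c31
    .bad
    (.sgn false 2 0 2 1 0)
    .bad
    .bad
    .bad
    .bad
    (.sgn true 1 3 3 2 0)

def c33 : Cert :=
  .node (.sgn true 0 1 2 1 0)
    c32
    (.sgn false 2 0 3 2 0)
    .bad
    .bad
    .bad
    .bad
    (.lp [.g false 1 2 3 0 2, .g true 3 0 3 0 1, .g true 3 0 1 2 3, .g true 3 2 1 0 2,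
      .d 1 9 13, .d 9 13 10, .d 12 14 15, .d 14 15 10])

def c34 : Cert :=
  .node .bad
    .bad
    c28
    .bad
    .bad
    .bad
    c33
    .bad

def c35 : Cert :=
  .node .bad
    .bad
    .bad
    .bad
    c34
    .bad
    (.sgn true 3 0 2 1 0)
    .bad

def c36 : Cert :=
  .node (.sgn true 0 1 3 1 0)
    (.sgn true 1 2 3 2 0)
    (.lp [.g false 0 1 1 2 0, .g false 0 1 0 2 3, .g false 0 3 2 0 1, .g false 2 1 2 0 1,
      .g false 2 3 1 3 0, .g false 2 3 2 3 1, .g false 3 0 3 1 2, .g false 3 1 1 3 2,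
      .g false 3 2 0 3 2, .g true 1 0 1 0 2, .g true 1 3 0 2 1, .g true 1 3 1 3 0,
      .g true 2 1 0 3 1, .g true 2 1 2 0 3, .g true 2 3 1 2 0, .g true 3 0 3 0 2,
      .g true 3 2 2 0 1, .d 0 4 8, .d 5 1 9, .d 10 6 2, .d 15 11 7, .d 15 11 7])
    .bad
    .bad
    .bad
    .bad
    .bad

def c37 : Cert :=
  .node .bad
    .bad
    .bad
    .bad
    .bad
    .bad
    .bad
    c36

def c38 : Cert :=
  .node .bad
    .bad
    .bad
    .bad
    c37
    .bad
    .bad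
    (.sgn true 3 0 3 1 0)

def c39 : Cert :=
  .node .bad
    .bad
    .bad
    .bad
    (.sgn false 0 1 3 2 0)
    c38
    .bad
    (.sgn true 3 0 3 2 0)

def c40 : Cert :=
  .node .bad
    .bad
    .bad
    c39
    .bad
    .bad
    .bad
    (.sgn true 0 1 3 1 0)

def c41 : Cert :=
  .node c40
    .bad
    .bad
    (.sgn false 2 0 3 1 0)
    .bad
    .bad
    .bad
    (.sgn true 1 2 3 2 0)

def c42 : Cert :=
  .node (.sgn true 0 1 3 1 0)
    (.lp [.g false 0 1 1 2 0, .g false 0 2 2 0 1, .g false 1 3 1 2 0, .g true 1 2 1 3 0,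
      .g true 1 2 3 0 2, .g true 2 1 0 2 3, .d 0 4 1, .d 4 5 8, .d 1 9 3, .d 10 11 6])
    .bad
    (.sgn false 3 0 3 2 0)
    .bad
    .bad
    .bad
    .bad

def c43 : Cert :=
  .node (.sgn true 0 1 2 1 0)
    c41
    .bad
    (.sgn false 2 0 3 2 0)
    .bad
    .bad
    .bad
    c42

def c44 : Cert :=
  .node .bad
    .bad
    .bad
    (.sgn false 0 1 3 2 0)
    .bad
    .bad
    c43
    .bad

def c45 : Cert :=
  .node .bad
    .bad
    .bad
    c35
    c44
    .bad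
    (.sgn true 2 0 2 1 0)
    .bad

def c46 : Cert :=
  .node .bad
    .bad
    c45
    .bad
    .bad
    .bad
    (.sgn true 0 1 2 1 0)
    .bad

def c47 : Cert :=
  .node .bad
    .bad
    .bad
    (.sgn false 1 2 3 1 0)
    .bad
    .bad
    .bad
    (.sgn true 0 1 3 1 0)

def c48 : Cert :=
  .node .bad
    .bad
    .bad
    .bad
    (.sgn false 0 2 3 2 0)
    (.sgn false 1 0 3 1 0)
    (.lp [.g false 2 0 2 0 3, .g false 3 0 2 0 1, .g false 3 0 3 0 2, .g false 3 1 1 0 2,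
      .g true 1 2 2 3 0, .g true 1 3 2 0 1, .g true 1 3 1 3 2, .g true 2 0 2 1 3,
      .g true 2 1 0 3 2, .g true 2 3 2 3 0, .g true 3 0 3 0 2, .g true 3 2 0 3 2, .d 4 5 6,
      .d 10 8 9, .d 15 14 12])
    .bad

def c49 : Cert :=
  .node .bad
    .bad
    .bad
    (.sgn false 1 2 3 1 0)
    .bad
    .bad
    .bad
    .bad

def c50 : Cert :=
  .node .bad
    .bad
    .bad
    c48
    .bad
    c49
    .bad
    .bad

def c51 : Cert :=
  .node c50
    .bad
    .bad
    (.sgn false 3 0 3 1 0)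
    .bad
    .bad
    .bad
    .bad

def c52 : Cert :=
  .node (.sgn false 3 1 2 1 0)
    c51
    .bad
    (.sgn false 3 0 3 2 0)
    .bad
    .bad
    .bad
    .bad

def c53 : Cert :=
  .node c47
    .bad
    .bad
    (.sgn false 1 0 3 1 0)
    .bad
    .bad
    .bad
    c52

def c54 : Cert :=
  .node .bad
    .bad
    .bad
    (.sgn false 0 2 3 2 0)
    .bad
    c53
    .bad
    (.sgn true 2 1 3 1 0)

def c55 : Cert :=
  .node .bad
    .bad
    .bad
    (.lp [.g false 2 0 3 0 1, .g false 2 0 1 2 3, .g false 2 1 1 0 2, .g true 1 2 2 0 1,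
      .d 4 5 6, .d 5 6 9, .d 2 10 14, .d 10 14 9])
    c54
    (.sgn false 1 0 2 1 0)
    .bad
    (.sgn true 2 0 3 2 0)

def c56 : Cert :=
  .node .bad
    .bad
    (.sgn false 1 2 2 1 0)
    .bad
    .bad
    .bad
    .bad
    (.sgn true 0 1 3 1 0)

def c57 : Cert :=
  .node .bad
    .bad
    c55
    .bad
    .bad
    c56
    .bad
    (.sgn true 0 1 3 2 0)

def c58 : Cert :=
  .node (.lp [.g false 1 2 1 0 2, .g false 1 3 2 1 0, .g false 3 1 1 0 2, .g true 1 0 3 1 2,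
      .g true 1 2 1 3 2, .g true 1 2 1 3 2, .g true 2 1 2 0 1, .d 5 6 7, .d 5 6 7, .d 6 7 2,
      .d 6 7 10, .d 3 11 1, .d 8 9 10, .d 9 1 10])
    .bad
    .bad
    (.sgn false 1 0 3 1 0)
    .bad
    .bad
    (.lp [.g false 2 3 2 1 0, .g false 3 1 1 0 2, .g true 1 0 3 1 2, .g true 1 2 1 3 2,
      .g true 2 1 2 3 1, .d 5 6 7, .d 6 7 10, .d 3 11 2])
    .bad

def c59 : Cert :=
  .node .bad
    .bad
    .bad
    (.sgn false 0 3 3 2 0)
    .bad
    c58
    (.lp [.g false 2 3 2 1 0, .g false 3 2 1 0 2, .g true 1 0 3 1 2, .d 5 6 7, .d 6 7 10,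
      .d 3 11 2])
    .bad

def c60 : Cert :=
  .node .bad
    .bad
    .bad
    (.lp [.g false 3 0 3 0 1, .g false 3 0 1 2 3, .g false 3 1 1 0 2, .g true 1 0 2 0 3,
      .g true 1 0 3 1 2, .g true 1 2 2 0 1, .g true 1 2 3 0 2, .g true 1 2 1 3 2, .d 4 5 6,
      .d 5 6 7, .d 6 7 10, .d 3 11 15, .d 11 15 9])
    c59
    (.sgn false 1 0 2 1 0)
    (.sgn false 2 0 2 1 0)
    .bad

def c61 : Cert :=
  .node .bad
    .bad
    (.sgn false 2 3 2 1 0)
    .bad
    .bad
    .bad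
    .bad
    .bad

def c62 : Cert :=
  .node .bad
    .bad
    (.sgn false 1 3 2 1 0)
    .bad
    .bad
    .bad
    c61
    .bad

def c63 : Cert :=
  .node .bad
    .bad
    (.sgn false 1 2 2 1 0)
    .bad
    .bad
    .bad
    .bad
    .bad

def c64 : Cert :=
  .node .bad
    .bad
    (.sgn false 2 3 2 1 0)
    .bad
    .bad
    c63
    .bad
    .bad

def c65 : Cert :=
  .node .bad
    .bad
    c60
    .bad
    .bad
    c62
    c64
    .bad

def c66 : Cert :=
  .node c65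
    .bad
    (.sgn false 3 0 2 1 0)
    .bad
    .bad
    .bad
    .bad
    .bad

def c67 : Cert :=
  .node c57
    .bad
    (.sgn false 2 0 2 1 0)
    .bad
    .bad
    .bad
    .bad
    c66

def c68 : Cert :=
  .node c46
    .bad
    (.sgn false 1 0 2 1 0)
    .bad
    .bad
    .bad
    c67
    .bad

def c69 : Cert :=
  .node .bad
    .bad
    c27
    .bad
    .bad
    c68
    .bad
    .bad

def c70 : Cert :=
  .node .bad
    .bad
    .bad
    .bad
    .bad
    .bad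
    (.sgn true 2 3 2 1 0)
    .bad

def c71 : Cert :=
  .node .bad
    .bad
    c70
    .bad
    .bad
    .bad
    (.sgn true 1 3 2 1 0)
    .bad

def c72 : Cert :=
  .node .bad
    .bad
    .bad
    .bad
    .bad
    .bad
    (.sgn true 1 2 2 1 0)
    .bad

def c73 : Cert :=
  .node .bad
    c72
    .bad
    .bad
    .bad
    .bad
    (.sgn true 2 3 2 1 0)
    .bad

def c74 : Cert :=
  .node .bad
    .bad
    (.lp [.g false 1 0 3 1 2, .g false 2 1 2 3 1, .g true 2 3 2 1 0, .g true 3 1 1 0 2,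
      .d 5 9 6, .d 12 14 8])
    .bad
    (.lp [.g false 1 0 1 0 2, .g false 1 2 2 0 1, .g false 1 2 1 3 2, .g true 1 2 1 0 2,
      .d 5 9 13, .d 9 13 8, .d 6 4 10])
    .bad
    .bad
    (.sgn true 1 0 3 1 0)

def c75 : Cert :=
  .node .bad
    c74
    (.lp [.g false 1 0 3 1 2, .g true 2 3 2 1 0, .g true 3 2 1 0 2, .d 5 9 13, .d 9 13 10,
      .d 12 14 8])
    .bad
    .bad
    .bad
    .bad
    (.sgn true 0 3 3 2 0)

def c76 : Cert :=
  .node c75
    (.sgn false 2 0 3 1 0)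
    (.sgn false 2 0 3 2 0)
    .bad
    .bad
    .bad
    .bad
    (.lp [.g false 1 0 3 1 2, .g true 3 0 3 0 1, .g true 3 0 1 2 3, .g true 3 2 1 0 3,
      .g true 3 2 3 0 2, .d 5 9 13, .d 9 13 8, .d 13 12 14, .d 12 14 15, .d 14 15 10])

def c77 : Cert :=
  .node .bad
    c71
    c73
    .bad
    .bad
    .bad
    c76
    .bad

def c78 : Cert :=
  .node .bad
    .bad
    .bad
    .bad
    c77
    .bad
    (.sgn true 3 0 2 1 0)
    .bad

def c79 : Cert :=
  .node .bad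
    .bad
    .bad
    (.sgn false 0 1 3 1 0)
    .bad
    .bad
    (.sgn true 1 2 2 1 0)
    .bad

def c80 : Cert :=
  .node .bad
    .bad
    .bad
    .bad
    .bad
    .bad
    .bad
    (.sgn true 1 2 3 1 0)

def c81 : Cert :=
  .node (.sgn true 0 2 3 2 0)
    (.sgn false 3 0 3 1 0)
    (.lp [.g false 1 2 2 3 1, .g false 1 3 2 0 1, .g false 1 3 1 3 2, .g false 2 0 3 0 2,
      .g false 2 0 2 1 3, .g false 2 1 1 3 0, .g false 2 1 0 3 2, .g false 2 3 2 3 0,
      .g false 3 2 0 3 2, .d 1 5 9, .d 10 2 6, .d 15 11 3])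
    .bad
    .bad
    .bad
    .bad
    .bad

def c82 : Cert :=
  .node .bad
    c80
    .bad
    .bad
    .bad
    .bad
    .bad
    c81

def c83 : Cert :=
  .node .bad
    .bad
    .bad
    .bad
    c82
    .bad
    .bad
    (.sgn true 3 0 3 1 0)

def c84 : Cert :=
  .node .bad
    .bad
    .bad
    .bad
    (.sgn false 0 1 3 2 0)
    c83
    .bad
    (.sgn true 3 0 3 2 0)

def c85 : Cert :=
  .node .bad
    .bad
    .bad
    (.sgn false 0 1 3 1 0)
    .bad
    .bad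
    .bad
    (.sgn true 1 2 3 1 0)

def c86 : Cert :=
  .node .bad
    .bad
    .bad
    c84
    c85
    .bad
    .bad
    (.sgn true 1 0 3 1 0)

def c87 : Cert :=
  .node .bad
    c86
    .bad
    (.sgn false 2 1 3 1 0)
    .bad
    .bad
    .bad
    (.sgn true 0 2 3 2 0)

def c88 : Cert :=
  .node c87
    (.sgn false 2 0 2 1 0)
    .bad
    (.sgn false 2 0 3 2 0)
    .bad
    .bad
    .bad
    (.lp [.g false 1 2 2 0 1, .g true 2 0 3 0 1, .g true 2 0 1 2 3, .g true 2 1 1 0 2, .d 1 5 9,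
      .d 5 9 6, .d 8 10 11, .d 10 11 6])

def c89 : Cert :=
  .node .bad
    c79
    .bad
    (.sgn false 0 1 3 2 0)
    .bad
    .bad
    c88
    .bad

def c90 : Cert :=
  .node .bad
    .bad
    .bad
    c78
    c89
    .bad
    (.sgn true 2 0 2 1 0)
    .bad

def c91 : Cert :=
  .node .bad
    .bad
    .bad
    .bad
    (.sgn false 0 1 3 1 0)
    (.lp [.g false 1 2 1 2 0, .g false 1 2 3 1 2, .g false 2 1 0 2 3, .g true 0 2 2 0 1,
      .g true 1 3 1 2 0, .d 0 1 2, .d 4 6 12, .d 10 14 9])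
    .bad
    (.sgn true 3 0 3 2 0)

def c92 : Cert :=
  .node .bad
    .bad
    .bad
    .bad
    (.sgn false 0 1 3 1 0)
    (.sgn false 1 2 3 2 0)
    (.lp [.g false 0 1 0 1 2, .g false 1 2 1 3 0, .g false 2 0 2 1 3, .g false 2 1 0 2 1,
      .g false 2 3 1 2 0, .g false 3 1 3 0 2, .g false 3 2 2 0 1, .g true 0 1 1 2 0,
      .g true 0 1 1 2 0, .g true 0 1 0 2 3, .g true 0 3 2 0 1, .g true 1 2 2 1 0,
      .g true 2 0 2 0 1, .g true 2 0 1 3 2, .g true 2 3 2 3 1, .g true 2 3 2 3 1,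
      .g true 3 0 3 0 2, .g true 3 1 1 3 2, .g true 3 2 1 3 2, .g true 3 2 1 3 2, .d 0 1 4,
      .d 0 1 4, .d 1 5 2, .d 1 5 2, .d 5 4 6, .d 15 14 12, .d 15 14 13, .d 15 14 13])
    .bad

def c93 : Cert :=
  .node .bad
    .bad
    .bad
    c92
    .bad
    .bad
    .bad
    .bad

def c94 : Cert :=
  .node c93
    .bad
    .bad
    (.sgn false 3 0 3 1 0)
    .bad
    .bad
    .bad
    .bad

def c95 : Cert :=
  .node (.sgn true 0 1 3 2 0)
    c94
    .bad
    (.sgn false 3 0 3 2 0)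
    .bad
    .bad
    .bad
    .bad

def c96 : Cert :=
  .node .bad
    .bad
    .bad
    (.sgn false 0 1 3 1 0)
    .bad
    .bad
    .bad
    c95

def c97 : Cert :=
  .node .bad
    .bad
    .bad
    (.sgn false 1 2 3 2 0)
    c96
    .bad
    .bad
    (.sgn true 2 0 3 1 0)

def c98 : Cert :=
  .node .bad
    .bad
    .bad
    c91
    (.sgn false 0 1 2 1 0)
    c97
    .bad
    (.sgn true 2 0 3 2 0)

def c99 : Cert :=
  .node .bad
    .bad
    c98
    .bad
    .bad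
    .bad
    .bad
    (.sgn true 0 1 3 2 0)

def c100 : Cert :=
  .node .bad
    .bad
    .bad
    (.sgn false 2 3 3 1 0)
    .bad
    .bad
    .bad
    .bad

def c101 : Cert :=
  .node c100
    .bad
    .bad
    (.sgn false 2 0 3 1 0)
    .bad
    .bad
    .bad
    .bad

def c102 : Cert :=
  .node .bad
    .bad
    .bad
    (.sgn false 0 1 3 1 0)
    .bad
    .bad
    c101
    .bad

def c103 : Cert :=
  .node .bad
    .bad
    .bad
    (.sgn false 1 3 3 2 0)
    c102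
    .bad
    (.sgn false 2 0 2 1 0)
    .bad

def c104 : Cert :=
  .node .bad
    .bad
    .bad
    (.lp [.g false 3 0 3 0 1, .g false 3 0 1 2 3, .g false 3 2 1 0 2, .g true 1 2 3 0 2,
      .d 4 6 7, .d 6 7 10, .d 3 11 15, .d 11 15 10])
    (.sgn false 0 1 2 1 0)
    c103
    (.sgn false 2 0 2 1 0)
    .bad

def c105 : Cert :=
  .node .bad
    .bad
    (.sgn false 2 3 2 1 0)
    .bad
    .bad
    .bad
    .bad
    .bad

def c106 : Cert :=
  .node .bad
    .bad
    c104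
    .bad
    .bad
    .bad
    c105
    .bad

def c107 : Cert :=
  .node c106
    .bad
    (.sgn false 3 0 2 1 0)
    .bad
    .bad
    .bad
    .bad
    .bad

def c108 : Cert :=
  .node c99
    .bad
    (.sgn false 2 0 2 1 0)
    .bad
    .bad
    .bad
    .bad
    c107

def c109 : Cert :=
  .node .bad
    .bad
    (.sgn false 0 1 2 1 0)
    .bad
    .bad
    .bad
    c108
    .bad

def c110 : Cert :=
  .node .bad
    .bad
    c90
    .bad
    c109
    .bad
    (.sgn true 1 0 2 1 0)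
    .bad

def c111 : Cert :=
  .node .bad
    (.lp [.g false 0 2 2 0 1, .g false 2 0 0 1 2, .g true 0 1 2 0 1, .g true 0 2 0 2 1,
      .g true 1 0 1 2 0, .d 0 1 2, .d 1 2 9, .d 6 10 5])
    .bad
    (.sgn false 0 2 3 2 0)
    .bad
    (.lp [.g false 1 2 2 0 1, .g false 2 0 0 1 2, .g true 0 1 2 0 1, .g true 0 2 0 2 1,
      .g true 2 0 1 2 0, .d 0 1 2, .d 1 2 9, .d 6 10 5])
    .bad
    (.sgn true 2 0 3 1 0)

def c112 : Cert :=
  .node .bad
    .bad
    .bad
    (.lp [.g false 2 1 0 1 3, .g false 2 1 3 1 2, .g false 2 3 2 0 1, .g false 2 3 1 3 2,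
      .g true 0 1 2 0 1, .d 0 1 2, .d 1 2 5, .d 2 6 10, .d 6 10 14, .d 10 14 9])
    c111
    (.lp [.g false 1 2 2 0 1, .g false 2 1 0 1 2, .g true 0 1 2 0 1, .d 0 1 2, .d 1 2 9,
      .d 6 10 5])
    .bad
    (.sgn true 2 0 3 2 0)

def c113 : Cert :=
  .node .bad
    .bad
    .bad
    .bad
    (.sgn false 0 2 3 1 0)
    (.sgn false 1 2 3 1 0)
    (.lp [.g false 2 3 3 0 2, .g false 3 1 1 2 3, .g false 3 2 0 2 1, .g true 0 1 0 2 1,
      .g true 0 1 1 3 0, .g true 0 1 2 3 1, .g true 0 1 2 3 1, .g true 0 2 3 0 1,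
      .g true 0 2 1 3 2, .g true 1 0 1 3 0, .g true 1 0 0 3 2, .d 0 1 2, .d 1 2 5, .d 2 6 14,
      .d 11 15 10, .d 15 14 13])
    .bad

def c114 : Cert :=
  .node .bad
    .bad
    .bad
    c113
    (.sgn false 0 2 2 1 0)
    (.sgn false 1 2 2 1 0)
    (.lp [.g true 0 1 2 3 1, .g true 0 3 2 0 1, .g true 0 3 1 3 2, .g true 1 0 1 3 2,
      .g true 1 2 0 3 1, .g true 1 2 2 3 0, .g true 2 1 1 3 2, .d 0 1 2, .d 11 10 9])
    .bad

def c115 : Cert :=
  .node .bad
    .bad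
    c114
    .bad
    .bad
    .bad
    .bad
    .bad

def c116 : Cert :=
  .node c115
    .bad
    (.sgn false 3 0 2 1 0)
    .bad
    .bad
    .bad
    .bad
    .bad

def c117 : Cert :=
  .node .bad
    .bad
    (.sgn false 1 2 2 1 0)
    .bad
    .bad
    .bad
    .bad
    c116

def c118 : Cert :=
  .node .bad
    .bad
    (.sgn false 0 2 2 1 0)
    .bad
    .bad
    c117
    .bad
    (.sgn true 1 0 3 1 0)

def c119 : Cert :=
  .node .bad
    .bad
    .bad
    .bad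
    (.sgn false 0 1 3 1 0)
    (.sgn false 1 2 3 1 0)
    (.lp [.g false 2 3 3 0 2, .g false 3 1 0 2 3, .g true 0 2 3 1 2, .g true 0 3 2 0 1,
      .d 0 1 2, .d 1 2 13, .d 11 15 10, .d 15 14 13])
    .bad

def c120 : Cert :=
  .node .bad
    .bad
    .bad
    c119
    (.sgn false 0 1 2 1 0)
    (.sgn false 1 2 2 1 0)
    (.lp [.g true 0 1 2 0 1, .g true 1 0 1 3 2, .g true 1 2 2 3 1, .g true 2 1 1 3 2, .d 0 1 2,
      .d 11 10 9])
    .bad

def c121 : Cert :=
  .node .bad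
    .bad
    c120
    .bad
    .bad
    .bad
    .bad
    .bad

def c122 : Cert :=
  .node c121
    .bad
    (.sgn false 3 0 2 1 0)
    .bad
    .bad
    .bad
    .bad
    .bad

def c123 : Cert :=
  .node .bad
    .bad
    (.sgn false 0 1 2 1 0)
    .bad
    .bad
    .bad
    .bad
    c122

def c124 : Cert :=
  .node .bad
    .bad
    (.sgn false 1 2 2 1 0)
    .bad
    c123
    .bad
    .bad
    (.sgn true 1 0 3 1 0)

def c125 : Cert :=
  .node .bad
    .bad
    c112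
    .bad
    c118
    c124
    .bad
    (.sgn true 1 0 3 2 0)

def c126 : Cert :=
  .node .bad
    (.lp [.g false 0 3 2 0 1, .g false 3 0 0 1 2, .g true 0 1 3 0 1, .g true 0 2 0 3 1,
      .g true 0 2 1 3 2, .g true 1 0 1 3 0, .d 0 1 3, .d 2 3 10, .d 7 11 5])
    .bad
    (.sgn false 0 3 3 2 0)
    .bad
    (.lp [.g false 1 3 2 0 1, .g false 3 0 0 1 2, .g true 0 1 2 0 1, .g true 0 1 3 0 2,
      .g true 0 2 0 2 1, .g true 2 0 1 3 0, .d 0 1 2, .d 1 2 9, .d 7 11 5])
    (.lp [.g false 2 3 2 0 1, .g false 3 0 0 1 2, .g true 0 1 3 0 2, .g true 0 2 0 2 1,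
      .g true 2 0 2 3 0, .d 1 2 9, .d 7 11 6])
    .bad

def c127 : Cert :=
  .node .bad
    .bad
    .bad
    (.lp [.g false 3 1 0 2 3, .g false 3 1 3 1 2, .g true 0 2 2 0 1, .g true 0 2 3 1 2,
      .d 0 1 2, .d 1 2 9, .d 7 11 15, .d 11 15 9])
    c126
    (.lp [.g false 1 3 2 0 1, .g false 3 1 0 1 2, .g true 0 1 3 0 1, .g true 0 2 1 3 2,
      .d 0 1 3, .d 2 3 10, .d 7 11 5])
    (.lp [.g false 2 3 2 0 1, .g false 3 1 0 1 2, .g true 0 1 3 1 2, .g true 0 2 2 0 1,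
      .d 0 1 2, .d 1 2 9, .d 7 11 6, .d 11 10 9])
    .bad

def c128 : Cert :=
  .node .bad
    .bad
    (.sgn false 2 3 2 1 0)
    .bad
    .bad
    .bad
    .bad
    .bad

def c129 : Cert :=
  .node .bad
    .bad
    (.sgn false 1 3 2 1 0)
    .bad
    .bad
    .bad
    c128
    .bad

def c130 : Cert :=
  .node .bad
    .bad
    (.sgn false 0 3 2 1 0)
    .bad
    .bad
    c129
    (.lp [.g true 0 1 2 0 1, .g true 1 0 1 0 2, .d 0 1 2, .d 4 6 5])
    .bad

def c131 : Cert :=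
  .node .bad
    .bad
    (.sgn false 2 3 2 1 0)
    .bad
    .bad
    .bad
    .bad
    .bad

def c132 : Cert :=
  .node .bad
    .bad
    (.sgn false 0 1 2 1 0)
    .bad
    .bad
    .bad
    c131
    .bad

def c133 : Cert :=
  .node .bad
    .bad
    (.sgn false 0 1 2 1 0)
    .bad
    .bad
    .bad
    .bad
    .bad

def c134 : Cert :=
  .node .bad
    .bad
    (.sgn false 2 3 2 1 0)
    .bad
    c133
    .bad
    .bad
    .bad

def c135 : Cert :=
  .node .bad
    .bad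
    (.sgn false 1 3 2 1 0)
    .bad
    c132
    .bad
    c134
    .bad

def c136 : Cert :=
  .node .bad
    .bad
    c127
    .bad
    c130
    c135
    (.lp [.g true 0 1 2 0 1, .g true 1 0 1 3 2, .d 0 1 2, .d 7 6 5])
    .bad

def c137 : Cert :=
  .node .bad
    c136
    .bad
    .bad
    .bad
    .bad
    .bad
    .bad

def c138 : Cert :=
  .node .bad
    c125
    .bad
    .bad
    .bad
    .bad
    .bad
    c137

def c139 : Cert :=
  .node .bad
    c110
    .bad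
    .bad
    .bad
    .bad
    c138
    .bad

def c140 : Cert :=
  .node .bad
    c69
    .bad
    .bad
    .bad
    c139
    .bad
    .bad

theorem ok : check c140 [0] = true := by decide +kernel

end Pool.Agent.Lib.MP_dd1a29_co.CertData
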