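import Mathlib

/-!
Geometry of polytopes with two more facets than their dimension, in barycentric type
coordinates: `y` is an affine isomorphism onto `{z | ∑ z i = 1, ∑ X i * z i = 0}`.
-/

namespace Pool.Agent.Lib.MP_dd1a29_co

open Finset

section sums

variable {n : ℕ}

lemma sum_eq_two {f : Fin n → ℝ} {a b : Fin n} (hab : a ≠ b)
    (h : ∀ i, i ≠ a → i ≠ b → f i = 0) : ∑ i, f i = f a + f b := by
  rw [← Finset.sum_subset (Finset.subset_univ ({a, b} : Finset (Fin n)))]
  · rw [Finset.sum_pair hab]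
  · intro i _ hi
    simp only [Finset.mem_insert, Finset.mem_singleton, not_or] at hi
    exact h i hi.1 hi.2

lemma sum_eq_three {f : Fin n → ℝ} {a b k : Fin n} (hab : a ≠ b) (hak : a ≠ k) (hbk : b ≠ k)
    (h : ∀ i, i ≠ a → i ≠ b → i ≠ k → f i = 0) : ∑ i, f i = f a + f b + f k := by
  rw [← Finset.sum_subset (Finset.subset_univ ({a, b, k} : Finset (Fin n)))]
  · rw [Finset.sum_insert, Finset.sum_pair hbk]
    · ring
    · simp [hab, hak]
  · intro i _ hi
    simp only [Finset.mem_insert, Finset.mem_singleton, not_or] at hi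
    exact h i hi.1 hi.2.1 hi.2.2

/-- The direction of `{∑ z = 0, ∑ X z = 0}` supported on `{a, b, k}`, with `k`-coordinate
`X b - X a`. -/
def dirv (X : Fin n → ℝ) (a b k : Fin n) : Fin n → ℝ := fun i =>
  if i = k then X b - X a else if i = a then -(X b - X k) else if i = b then -(X k - X a) else 0

lemma dirv_k (X : Fin n → ℝ) (a b k : Fin n) : dirv X a b k k = X b - X a := by simp [dirv]

lemma dirv_a (X : Fin n → ℝ) {a b k : Fin n} (hak : a ≠ k) :
    dirv X a b k a = -(X b - X k) := by simp [dirv, hak]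

lemma dirv_b (X : Fin n → ℝ) {a b k : Fin n} (hab : a ≠ b) (hbk : b ≠ k) :
    dirv X a b k b = -(X k - X a) := by simp [dirv, hab.symm, hbk]

lemma dirv_0 (X : Fin n → ℝ) {a b k i : Fin n} (h1 : i ≠ a) (h2 : i ≠ b) (h3 : i ≠ k) :
    dirv X a b k i = 0 := by simp [dirv, h1, h2, h3]

lemma dirv_sum (X : Fin n → ℝ) {a b k : Fin n} (hab : a ≠ b) (hak : a ≠ k) (hbk : b ≠ k) :
    ∑ i, dirv X a b k i = 0 := by
  rw [sum_eq_three hab hak hbk (fun i h1 h2 h3 => dirv_0 X h1 h2 h3), dirv_a X hak,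
    dirv_b X hab hbk, dirv_k]
  ring

lemma dirv_sumX (X : Fin n → ℝ) {a b k : Fin n} (hab : a ≠ b) (hak : a ≠ k) (hbk : b ≠ k) :
    ∑ i, X i * dirv X a b k i = 0 := by
  rw [sum_eq_three hab hak hbk (fun i h1 h2 h3 => by rw [dirv_0 X h1 h2 h3, mul_zero]),
    dirv_a X hak, dirv_b X hab hbk, dirv_k]
  ring

/-- The determinant `det(a, b, k)` of the points `(1, X, h)`. -/
def det3 (X h : Fin n → ℝ) (a b k : Fin n) : ℝ :=
  (X b - X a) * h k - (X b - X k) * h a - (X k - X a) * h b

/-- Value of the linear form with coefficients `h` on a vector of the direction space that is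
supported on `{a, b, k}`. -/
lemma lin_of_supp {X h z : Fin n → ℝ} {a b k : Fin n} (hab : a ≠ b) (hak : a ≠ k) (hbk : b ≠ k)
    (hX : X a < X b) (h1 : ∑ i, z i = 0) (h2 : ∑ i, X i * z i = 0)
    (h0 : ∀ i, i ≠ a → i ≠ b → i ≠ k → z i = 0) :
    ∑ i, h i * z i = z k / (X b - X a) * det3 X h a b k := by
  rw [sum_eq_three hab hak hbk h0] at h1
  rw [sum_eq_three hab hak hbk (fun i i1 i2 i3 => by rw [h0 i i1 i2 i3, mul_zero])] at h2
  rw [sum_eq_three hab hak hbk (fun i i1 i2 i3 => by rw [h0 i i1 i2 i3, mul_zero])]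
  have hd : X b - X a ≠ 0 := by linarith [sub_pos.2 hX]
  have ha : z a = - (z k * (X b - X k)) / (X b - X a) := by
    rw [eq_div_iff hd]; linear_combination X b * h1 - h2
  have hb : z b = - (z k * (X k - X a)) / (X b - X a) := by
    rw [eq_div_iff hd]; linear_combination h2 - X a * h1
  rw [ha, hb, det3]
  field_simp
  ring

/-- A vector of the direction space that is supported on `{a, b, k}` is a multiple of `dirv`. -/
lemma vec_of_supp {X z : Fin n → ℝ} {a b k : Fin n} (hab : a ≠ b) (hak : a ≠ k) (hbk : b ≠ k)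
    (hX : X a < X b) (h1 : ∑ i, z i = 0) (h2 : ∑ i, X i * z i = 0)
    (h0 : ∀ i, i ≠ a → i ≠ b → i ≠ k → z i = 0) (i : Fin n) :
    z i = z k / (X b - X a) * dirv X a b k i := by
  rw [sum_eq_three hab hak hbk h0] at h1
  rw [sum_eq_three hab hak hbk (fun i i1 i2 i3 => by rw [h0 i i1 i2 i3, mul_zero])] at h2
  have hd : X b - X a ≠ 0 := by linarith [sub_pos.2 hX]
  by_cases hk : i = k
  · subst hk; rw [dirv_k]; field_simp
  by_cases ha : i = a
  · subst ha; rw [dirv_a X hak, div_mul_eq_mul_div, eq_div_iff hd]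
    linear_combination X b * h1 - h2
  by_cases hb : i = b
  · subst hb; rw [dirv_b X hab hbk, div_mul_eq_mul_div, eq_div_iff hd]
    linear_combination h2 - X a * h1
  rw [h0 i ha hb hk, dirv_0 X ha hb hk, mul_zero]

end sums

variable {E : Type*} [AddCommGroup E] [Module ℝ E] {n : ℕ}

/-- `y` is an affine isomorphism of `E` onto `{z | ∑ z i = 1, ∑ X i * z i = 0}`. -/
structure Sys (y : Fin n → (E →ᵃ[ℝ] ℝ)) (X : Fin n → ℝ) : Prop where
  sum1 : ∀ x, ∑ i, y i x = 1
  sumX : ∀ x, ∑ i, X i * y i x = 0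
  inj : ∀ x x', (∀ i, y i x = y i x') → x = x'
  surj : ∀ z : Fin n → ℝ, ∑ i, z i = 1 → ∑ i, X i * z i = 0 → ∃ x, ∀ i, y i x = z i
  ne0 : ∀ i, X i ≠ 0

/-- The polyhedron `y ≥ 0`. -/
def pos (y : Fin n → (E →ᵃ[ℝ] ℝ)) : Set E := {x | ∀ i, 0 ≤ y i x}

/-- `x` is the vertex with nonzero coordinates `a`, `b`. -/
structure IsV (y : Fin n → (E →ᵃ[ℝ] ℝ)) (X : Fin n → ℝ) (x : E) (a b : Fin n) : Prop where
  ha : X a < 0
  hb : 0 < X b
  ya : y a x = X b / (X b - X a)
  yb : y b x = -X a / (X b - X a)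
  y0 : ∀ k, k ≠ a → k ≠ b → y k x = 0

variable {y : Fin n → (E →ᵃ[ℝ] ℝ)} {X : Fin n → ℝ}

namespace IsV

variable {x : E} {a b : Fin n}

lemma lt (h : IsV y X x a b) : X a < X b := h.ha.trans h.hb

lemma ne (h : IsV y X x a b) : a ≠ b := fun e => by
  have := h.lt; rw [e] at this; exact lt_irrefl _ this

lemma ya_pos (h : IsV y X x a b) : 0 < y a x := by
  rw [h.ya]; exact div_pos h.hb (sub_pos.2 h.lt)

lemma yb_pos (h : IsV y X x a b) : 0 < y b x := by
  rw [h.yb]; exact div_pos (neg_pos.2 h.ha) (sub_pos.2 h.lt)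

lemma mem (h : IsV y X x a b) : x ∈ pos y := by
  intro i
  by_cases h1 : i = a
  · rw [h1]; exact h.ya_pos.le
  by_cases h2 : i = b
  · rw [h2]; exact h.yb_pos.le
  rw [h.y0 i h1 h2]

end IsV

lemma eq_of_supp2 {z : Fin n → ℝ} {a b : Fin n} (hab : a ≠ b) (hX : X a < X b)
    (h1 : ∑ i, z i = 1) (h2 : ∑ i, X i * z i = 0) (h0 : ∀ i, i ≠ a → i ≠ b → z i = 0) :
    z a = X b / (X b - X a) ∧ z b = -X a / (X b - X a) := by
  rw [sum_eq_two hab h0] at h1
  rw [sum_eq_two hab (fun i i1 i2 => by rw [h0 i i1 i2, mul_zero])] at h2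
  have hd : X b - X a ≠ 0 := by linarith [sub_pos.2 hX]
  constructor
  · rw [eq_div_iff hd]; linear_combination X b * h1 - h2
  · rw [eq_div_iff hd]; linear_combination h2 - X a * h1

lemma comb_apply (f : E →ᵃ[ℝ] ℝ) {p q : E} {s t : ℝ} (h : s + t = 1) :
    f (s • p + t • q) = s * f p + t * f q := by
  have := Convex.combo_affine_apply (f := f) (x := p) (y := q) h
  simpa [smul_eq_mul] using this

namespace Sys

variable (S : Sys y X)

include S

lemma isV_of_supp {x : E} {a b : Fin n} (ha : X a < 0) (hb : 0 < X b)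
    (h0 : ∀ k, k ≠ a → k ≠ b → y k x = 0) : IsV y X x a b := by
  have hab : a ≠ b := fun e => by rw [e] at ha; linarith
  have := eq_of_supp2 (z := fun i => y i x) hab (ha.trans hb) (S.sum1 x) (S.sumX x) h0
  exact ⟨ha, hb, this.1, this.2, h0⟩

lemma isV_unique {x x' : E} {a b : Fin n} (h : IsV y X x a b) (h' : IsV y X x' a b) :
    x = x' := by
  apply S.inj
  intro i
  by_cases h1 : i = a
  · rw [h1, h.ya, h'.ya]
  by_cases h2 : i = b
  · rw [h2, h.yb, h'.yb]
  rw [h.y0 i h1 h2, h'.y0 i h1 h2]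

lemma exists_isV {a b : Fin n} (ha : X a < 0) (hb : 0 < X b) : ∃ x, IsV y X x a b := by
  have hab : a ≠ b := fun e => by rw [e] at ha; linarith
  have hd : X b - X a ≠ 0 := by linarith
  obtain ⟨x, hx⟩ := S.surj (fun i => if i = a then X b / (X b - X a) else
    if i = b then -X a / (X b - X a) else 0) (by
      rw [sum_eq_two hab (fun i i1 i2 => by simp [i1, i2])]
      simp only [if_true, hab.symm, if_false]
      field_simp
      ring) (by
      rw [sum_eq_two hab (fun i i1 i2 => by simp [i1, i2])]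
      simp only [if_true, hab.symm, if_false]
      field_simp
      ring)
  refine ⟨x, S.isV_of_supp ha hb fun k k1 k2 => ?_⟩
  rw [hx]; simp [k1, k2]

omit S in
lemma ind_unique {x : E} {a b a' b' : Fin n} (h : IsV y X x a b) (h' : IsV y X x a' b') :
    a = a' ∧ b = b' := by
  constructor
  · by_contra hne
    have h1 := h'.ya_pos
    have h2 : a' ≠ b := fun e => by have := h.hb; rw [← e] at this; linarith [h'.ha]
    rw [h.y0 a' (Ne.symm hne) h2] at h1
    exact lt_irrefl _ h1
  · by_contra hne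
    have h1 := h'.yb_pos
    have h2 : b' ≠ a := fun e => by have := h.ha; rw [← e] at this; linarith [h'.hb]
    rw [h.y0 b' h2 (Ne.symm hne)] at h1
    exact lt_irrefl _ h1

/-- Moving from `x` in the direction `dirv`. -/
lemma move (x : E) {a b k : Fin n} (hab : a ≠ b) (hak : a ≠ k) (hbk : b ≠ k) (e : ℝ) :
    ∃ x', ∀ i, y i x' = y i x + e * dirv X a b k i := by
  apply S.surj (fun i => y i x + e * dirv X a b k i)
  · rw [Finset.sum_add_distrib, S.sum1, ← Finset.mul_sum, dirv_sum X hab hak hbk]; ring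
  · have : ∀ i, X i * (y i x + e * dirv X a b k i) =
        X i * y i x + e * (X i * dirv X a b k i) := fun i => by ring
    simp only [this]
    rw [Finset.sum_add_distrib, S.sumX, ← Finset.mul_sum, dirv_sumX X hab hak hbk]; ring

lemma mid_eq {x p q : E} {z : Fin n → ℝ} (hp : ∀ i, y i p = y i x + z i)
    (hq : ∀ i, y i q = y i x - z i) : x ∈ openSegment ℝ p q := by
  refine ⟨1 / 2, 1 / 2, by norm_num, by norm_num, by norm_num, ?_⟩
  apply S.inj
  intro i
  rw [comb_apply _ (by norm_num), hp, hq]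
  ring

omit S in
/-- Small moves in the direction `dirv` from a point with positive `a, b, k` coordinates. -/
lemma exists_small {x : E} (hx : x ∈ pos y) {a b k : Fin n}
    (ha : 0 < y a x) (hb : 0 < y b x) (hk : 0 < y k x) :
    ∃ e : ℝ, 0 < e ∧ ∀ s : ℝ, |s| ≤ 1 → ∀ i, 0 ≤ y i x + s * (e * dirv X a b k i) := by
  set m := min (y a x) (min (y b x) (y k x)) with hm
  have hmpos : 0 < m := lt_min ha (lt_min hb hk)
  set B := |X b - X a| + |X b - X k| + |X k - X a| + 1 with hB
  have hBpos : 0 < B := by positivity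
  refine ⟨m / B, div_pos hmpos hBpos, fun s hs i => ?_⟩
  have key : ∀ (v w : ℝ), m ≤ w → |v| ≤ B → 0 ≤ w + s * (m / B * v) := by
    intro v w hw hv
    have h1 : |s * (m / B * v)| ≤ m := by
      rw [abs_mul, abs_mul, abs_of_pos (div_pos hmpos hBpos)]
      calc |s| * (m / B * |v|) ≤ 1 * (m / B * B) := by
            apply mul_le_mul hs _ (by positivity) (by norm_num)
            exact mul_le_mul_of_nonneg_left hv (div_pos hmpos hBpos).le
        _ = m := by field_simp
    have := neg_abs_le (s * (m / B * v))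
    linarith
  have n1 := abs_nonneg (X b - X a)
  have n2 := abs_nonneg (X b - X k)
  have n3 := abs_nonneg (X k - X a)
  unfold dirv
  split_ifs with h1 h2 h3
  · rw [h1]; exact key _ _ ((min_le_right _ _).trans (min_le_right _ _)) (by linarith)
  · rw [h2]; exact key _ _ (min_le_left _ _) (by rw [abs_neg]; linarith)
  · rw [h3]
    exact key _ _ ((min_le_right _ _).trans (min_le_left _ _)) (by rw [abs_neg]; linarith)
  · have := hx i; simpa using this

lemma isV_of_extreme {x : E} (hx : x ∈ (pos y).extremePoints ℝ) : ∃ a b, IsV y X x a b := by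
  rw [mem_extremePoints] at hx
  obtain ⟨hxP, hext⟩ := hx
  have hpos : ∃ i, 0 < y i x := by
    by_contra hcon
    push Not at hcon
    have h1 : ∑ i, y i x ≤ 0 := Finset.sum_nonpos fun i _ => hcon i
    rw [S.sum1] at h1
    linarith
  have hab : ∃ a b, X a < 0 ∧ 0 < X b ∧ 0 < y a x ∧ 0 < y b x := by
    obtain ⟨i, hi⟩ := hpos
    rcases lt_or_gt_of_ne (S.ne0 i) with hXi | hXi
    · -- a negative index; find a positive one
      by_contra hcon
      push Not at hcon
      have hle : ∀ j, X j * y j x ≤ 0 := by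
        intro j
        rcases le_or_gt (X j) 0 with hj | hj
        · exact mul_nonpos_of_nonpos_of_nonneg hj (hxP j)
        · have h0 : y j x ≤ 0 := hcon i j hXi hj hi
          have h0' : y j x = 0 := le_antisymm h0 (hxP j)
          rw [h0', mul_zero]
      have hlt : ∑ j, X j * y j x < 0 := by
        apply Finset.sum_neg' (fun j _ => hle j)
        exact ⟨i, Finset.mem_univ _, mul_neg_of_neg_of_pos hXi hi⟩
      rw [S.sumX] at hlt
      exact lt_irrefl _ hlt
    · by_contra hcon
      push Not at hcon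
      have hle : ∀ j, 0 ≤ X j * y j x := by
        intro j
        rcases lt_or_ge (X j) 0 with hj | hj
        · have h0' : y j x = 0 := by
            by_contra hne
            have : 0 < y j x := lt_of_le_of_ne (hxP j) (Ne.symm hne)
            exact absurd hi (not_lt.2 (hcon j i hj hXi this))
          rw [h0', mul_zero]
        · exact mul_nonneg hj (hxP j)
      have hlt : 0 < ∑ j, X j * y j x := by
        apply Finset.sum_pos' (fun j _ => hle j)
        exact ⟨i, Finset.mem_univ _, mul_pos hXi hi⟩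
      rw [S.sumX] at hlt
      exact lt_irrefl _ hlt
  obtain ⟨a, b, ha, hb, hya, hyb⟩ := hab
  have hne : a ≠ b := fun e => by rw [e] at ha; linarith
  refine ⟨a, b, S.isV_of_supp ha hb fun k hka hkb => ?_⟩
  by_contra hk0
  have hk : 0 < y k x := lt_of_le_of_ne (hxP k) (Ne.symm hk0)
  obtain ⟨e, he, hsm⟩ := exists_small hxP hya hyb hk
  obtain ⟨p, hp⟩ := S.move x hne hka.symm hkb.symm e
  obtain ⟨q, hq⟩ := S.move x hne hka.symm hkb.symm (-e)
  have hpP : p ∈ pos y := fun i => by
    rw [hp]; have := hsm 1 (by simp) i; linarith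
  have hqP : q ∈ pos y := fun i => by
    rw [hq]; have := hsm (-1) (by simp) i; linarith
  have hmid : x ∈ openSegment ℝ p q := S.mid_eq (z := fun i => e * dirv X a b k i) hp
    (fun i => by rw [hq]; ring)
  have := (hext p hpP q hqP hmid).1
  have h2 := hp k
  rw [this, dirv_k] at h2
  have : e * (X b - X a) = 0 := by linarith
  rcases mul_eq_zero.1 this with h | h
  · linarith
  · linarith

lemma extreme_of_isV {x : E} {a b : Fin n} (h : IsV y X x a b) :
    x ∈ (pos y).extremePoints ℝ := by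
  rw [mem_extremePoints]
  refine ⟨h.mem, ?_⟩
  have key : ∀ p ∈ pos y, ∀ q ∈ pos y, x ∈ openSegment ℝ p q → p = x := by
    intro p hp q hq hx
    obtain ⟨s, t, hs, ht, hst, hx⟩ := hx
    apply S.isV_unique _ h
    apply S.isV_of_supp h.ha h.hb
    intro k hka hkb
    have h1 := h.y0 k hka hkb
    rw [← hx, comb_apply _ hst] at h1
    have h2 := mul_nonneg hs.le (hp k)
    have h3 := mul_nonneg ht.le (hq k)
    have h4 : s * y k p = 0 := by linarith
    rcases mul_eq_zero.1 h4 with h5 | h5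
    · linarith
    · exact h5
  intro p hp q hq hx
  refine ⟨key p hp q hq hx, key q hq p hp ?_⟩
  rwa [openSegment_symm]

lemma extreme_iff {x : E} : x ∈ (pos y).extremePoints ℝ ↔ ∃ a b, IsV y X x a b :=
  ⟨S.isV_of_extreme, fun ⟨_, _, h⟩ => S.extreme_of_isV h⟩

omit S in
lemma convex_pos : Convex ℝ (pos y) := by
  intro p hp q hq s t hs ht hst i
  rw [comb_apply _ hst]
  have := mul_nonneg hs (hp i)
  have := mul_nonneg ht (hq i)
  linarith

/-- Two vertices that differ in both indices are not adjacent. -/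
lemma share_of_extreme {v w : E} {a b a' b' : Fin n} (hv : IsV y X v a b)
    (hw : IsV y X w a' b') (h : IsExtreme ℝ (pos y) (segment ℝ v w)) : a = a' ∨ b = b' := by
  by_contra hcon
  push Not at hcon
  obtain ⟨haa, hbb⟩ := hcon
  have hab' : a ≠ b' := fun e => by have := hw.hb; rw [← e] at this; linarith [hv.ha]
  have hba' : b ≠ a' := fun e => by have := hw.ha; rw [← e] at this; linarith [hv.hb]
  set m : E := (1 / 2 : ℝ) • v + (1 / 2 : ℝ) • w with hm
  have hmseg : m ∈ segment ℝ v w := ⟨1 / 2, 1 / 2, by norm_num, by norm_num, by norm_num, rfl⟩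
  have hmy : ∀ i, y i m = 1 / 2 * y i v + 1 / 2 * y i w := fun i =>
    comb_apply _ (by norm_num)
  have hmP : m ∈ pos y := fun i => by
    rw [hmy]; have := hv.mem i; have := hw.mem i; linarith
  have h1 : 0 < y a m := by
    rw [hmy]; have := hv.ya_pos; have := hw.mem a; linarith
  have h2 : 0 < y b m := by
    rw [hmy]; have := hv.yb_pos; have := hw.mem b; linarith
  have h3 : 0 < y a' m := by
    rw [hmy]; have := hw.ya_pos; have := hv.mem a'; linarith
  obtain ⟨e, he, hsm⟩ := exists_small hmP h1 h2 h3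
  obtain ⟨p, hp⟩ := S.move m hv.ne haa hba' e
  obtain ⟨q, hq⟩ := S.move m hv.ne haa hba' (-e)
  have hpP : p ∈ pos y := fun i => by
    rw [hp]; have := hsm 1 (by simp) i; linarith
  have hqP : q ∈ pos y := fun i => by
    rw [hq]; have := hsm (-1) (by simp) i; linarith
  have hmid : m ∈ openSegment ℝ p q := S.mid_eq (z := fun i => e * dirv X a b a' i) hp
    (fun i => by rw [hq]; ring)
  obtain ⟨s, t, hs, ht, hst, hpe⟩ := h.2 hpP hqP hmseg hmid
  have hb' := hp b'
  rw [dirv_0 X hab'.symm (Ne.symm hbb) (fun e => by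
    have := hw.hb; rw [e] at this; linarith [hw.ha]), ← hpe, comb_apply _ hst, hmy,
    hv.y0 b' hab'.symm (Ne.symm hbb)] at hb'
  have ht2 : t = 1 / 2 := by
    have := hw.yb_pos
    have h5 : (t - 1 / 2) * y b' w = 0 := by linarith
    rcases mul_eq_zero.1 h5 with h6 | h6
    · linarith
    · linarith
  have ha' := hp a'
  rw [dirv_k, ← hpe, comb_apply _ hst, hmy, hv.y0 a' (Ne.symm haa) hba'.symm, ht2] at ha'
  have h7 : e * (X b - X a) = 0 := by linarith
  rcases mul_eq_zero.1 h7 with h8 | h8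
  · linarith
  · linarith [hv.lt]

/-- If the vertices `v`, `w` have supports contained in `{a, b, k}`, then the segment is a face. -/
lemma extreme_of_same_a {v w : E} {a b b' : Fin n} (hv : IsV y X v a b)
    (hw : IsV y X w a b') (hbb : b ≠ b') : IsExtreme ℝ (pos y) (segment ℝ v w) := by
  refine ⟨convex_pos.segment_subset hv.mem hw.mem, ?_⟩
  rintro p hp q hq x ⟨s, t, hs, ht, hst, hx⟩ ⟨s', t', hs', ht', hst', hx'⟩
  have h0 : ∀ k, k ≠ a → k ≠ b → k ≠ b' → y k p = 0 := by
    intro k k1 k2 k3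
    have h1 : y k x = 0 := by
      rw [← hx, comb_apply _ hst, hv.y0 k k1 k2, hw.y0 k k1 k3]; ring
    rw [← hx', comb_apply _ hst'] at h1
    have h2 := mul_nonneg hs'.le (hp k)
    have h3 := mul_nonneg ht'.le (hq k)
    have h4 : s' * y k p = 0 := by linarith
    rcases mul_eq_zero.1 h4 with h5 | h5
    · linarith
    · exact h5
  have e1 := S.sum1 p
  have e2 := S.sumX p
  have hab : a ≠ b := hv.ne
  have hab' : a ≠ b' := hw.ne
  rw [sum_eq_three hab hab' hbb h0] at e1
  rw [sum_eq_three hab hab' hbb (fun i i1 i2 i3 => by rw [h0 i i1 i2 i3, mul_zero])] at e2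
  have hXa : X a ≠ 0 := S.ne0 a
  have hna : 0 < -X a := neg_pos.2 hv.ha
  have d1 : 0 < X b - X a := sub_pos.2 hv.lt
  have d2 : 0 < X b' - X a := sub_pos.2 hw.lt
  refine ⟨y b p * (X b - X a) / (-X a), y b' p * (X b' - X a) / (-X a),
    div_nonneg (mul_nonneg (hp b) d1.le) hna.le, div_nonneg (mul_nonneg (hp b') d2.le) hna.le,
    ?_, ?_⟩
  · rw [← add_div, div_eq_one_iff_eq hna.ne']
    linear_combination e2 - X a * e1
  · have hsum : y b p * (X b - X a) / (-X a) + y b' p * (X b' - X a) / (-X a) = 1 := by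
      rw [← add_div, div_eq_one_iff_eq hna.ne']
      linear_combination e2 - X a * e1
    apply S.inj
    intro i
    rw [comb_apply _ hsum]
    by_cases i1 : i = a
    · subst i1
      rw [hv.ya, hw.ya]
      have hXi : -X i ≠ 0 := hna.ne'
      have hd1 := d1.ne'
      have hd2 := d2.ne'
      field_simp
      linear_combination -e2
    by_cases i2 : i = b
    · subst i2
      rw [hv.yb, hw.y0 i i1 hbb]
      have hXi : -X a ≠ 0 := hna.ne'
      have hd1 := d1.ne'
      field_simp
      ring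
    by_cases i3 : i = b'
    · subst i3
      rw [hw.yb, hv.y0 i i1 i2]
      have hXi : -X a ≠ 0 := hna.ne'
      have hd1 := d2.ne'
      field_simp
      ring
    rw [hv.y0 i i1 i2, hw.y0 i i1 i3, h0 i i1 i2 i3]
    ring

lemma extreme_of_same_b {v w : E} {a a' b : Fin n} (hv : IsV y X v a b)
    (hw : IsV y X w a' b) (haa : a ≠ a') : IsExtreme ℝ (pos y) (segment ℝ v w) := by
  refine ⟨convex_pos.segment_subset hv.mem hw.mem, ?_⟩
  rintro p hp q hq x ⟨s, t, hs, ht, hst, hx⟩ ⟨s', t', hs', ht', hst', hx'⟩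
  have h0 : ∀ k, k ≠ a → k ≠ a' → k ≠ b → y k p = 0 := by
    intro k k1 k2 k3
    have h1 : y k x = 0 := by
      rw [← hx, comb_apply _ hst, hv.y0 k k1 k3, hw.y0 k k2 k3]; ring
    rw [← hx', comb_apply _ hst'] at h1
    have h2 := mul_nonneg hs'.le (hp k)
    have h3 := mul_nonneg ht'.le (hq k)
    have h4 : s' * y k p = 0 := by linarith
    rcases mul_eq_zero.1 h4 with h5 | h5
    · linarith
    · exact h5
  have e1 := S.sum1 p
  have e2 := S.sumX p
  have hab : a ≠ b := hv.ne
  have hab' : a' ≠ b := hw.ne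
  rw [sum_eq_three haa hab hab' h0] at e1
  rw [sum_eq_three haa hab hab' (fun i i1 i2 i3 => by rw [h0 i i1 i2 i3, mul_zero])] at e2
  have hna : 0 < X b := hv.hb
  have d1 : 0 < X b - X a := sub_pos.2 hv.lt
  have d2 : 0 < X b - X a' := sub_pos.2 hw.lt
  have hsum : y a p * (X b - X a) / (X b) + y a' p * (X b - X a') / (X b) = 1 := by
    rw [← add_div, div_eq_one_iff_eq hna.ne']
    linear_combination X b * e1 - e2
  refine ⟨y a p * (X b - X a) / (X b), y a' p * (X b - X a') / (X b),
    div_nonneg (mul_nonneg (hp a) d1.le) hna.le, div_nonneg (mul_nonneg (hp a') d2.le) hna.le,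
    hsum, ?_⟩
  apply S.inj
  intro i
  rw [comb_apply _ hsum]
  have hXb : X b ≠ 0 := hna.ne'
  have hd1 := d1.ne'
  have hd2 := d2.ne'
  by_cases i1 : i = b
  · subst i1
    rw [hv.yb, hw.yb]
    field_simp
    linear_combination -e2
  by_cases i2 : i = a
  · subst i2
    rw [hv.ya, hw.y0 i haa i1]
    field_simp
    ring
  by_cases i3 : i = a'
  · subst i3
    rw [hw.ya, hv.y0 i i2 i1]
    field_simp
    ring
  rw [hv.y0 i i2 i1, hw.y0 i i3 i1, h0 i i2 i3 i1]
  ring

/-- The difference of the coordinates of two vertices sharing an index. -/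
lemma diff_same_a {x w : E} {a b k : Fin n} (hx : IsV y X x a b) (hw : IsV y X w a k)
    (hbk : b ≠ k) (i : Fin n) :
    y i w - y i x = y k w / (X b - X a) * dirv X a b k i := by
  have h := vec_of_supp (X := X) (z := fun i => y i w - y i x) hx.ne hw.ne hbk hx.lt
    (by rw [Finset.sum_sub_distrib, S.sum1, S.sum1]; ring)
    (by simp only [mul_sub]; rw [Finset.sum_sub_distrib, S.sumX, S.sumX]; ring)
    (fun i i1 i2 i3 => by rw [hw.y0 i i1 i3, hx.y0 i i1 i2]; ring) i
  rw [h, hx.y0 k hw.ne.symm hbk.symm]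
  ring

lemma diff_same_b {x w : E} {a b k : Fin n} (hx : IsV y X x a b) (hw : IsV y X w k b)
    (hak : a ≠ k) (i : Fin n) :
    y i w - y i x = y k w / (X b - X a) * dirv X a b k i := by
  have h := vec_of_supp (X := X) (z := fun i => y i w - y i x) hx.ne hak hw.ne.symm hx.lt
    (by rw [Finset.sum_sub_distrib, S.sum1, S.sum1]; ring)
    (by simp only [mul_sub]; rw [Finset.sum_sub_distrib, S.sumX, S.sumX]; ring)
    (fun i i1 i2 i3 => by rw [hw.y0 i i3 i2, hx.y0 i i1 i2]; ring) i
  rw [h, hx.y0 k hak.symm hw.ne]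
  ring

end Sys

end Pool.Agent.Lib.MP_dd1a29_co
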