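import Mathlib

/-!
A checker for certificates that no Dantzig path visits all sixteen vertices of the product of
two tetrahedra.  A vertex is coded by `4 * a + b` with `a, b < 4`.
-/

namespace Pool.Agent.Lib.MP_dd1a29_co

/-- Exactly one of the two coordinates agrees. -/
def adjB (p q : ℕ) : Bool := (p / 4 == q / 4) != (p % 4 == q % 4)

/-- Code of an unordered pair. -/
def code (p q : ℕ) : ℕ := if p < q then 16 * p + q else 16 * q + p

/-- Code of the vertex with coordinates `x, y` (in the order given by `k`). -/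
def st (k : Bool) (x y : ℕ) : ℕ := if k then 4 * x + y else 4 * y + x

/-- `pre σ m` lists `σ m, …, σ 0`. -/
def pre (σ : ℕ → ℕ) : ℕ → List ℕ
  | 0 => [σ 0]
  | m + 1 => σ (m + 1) :: pre σ m

/-- In the reversed list, `p` occurs, and `q` does not occur up to that time. -/
def before : List ℕ → ℕ → ℕ → Bool
  | [], _, _ => false
  | s :: rest, p, q => if s == p then (!(rest.contains q) && !(s == q)) else before rest p q

/-- Known sign of the bracket of `p` and `q`. -/
def sg (π : List ℕ) (p q : ℕ) : ℤ :=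
  if adjB p q then (if before π p q then 1 else if before π q p then -1 else 0) else 0

/-- Known signs of the three terms of a relation. -/
def t1 (π : List ℕ) (k : Bool) (x x' y1 y2 y3 : ℕ) : ℤ :=
  sg π (st k x y1) (st k x y2) * sg π (st k x y3) (st k x' y3)

/-- The indices are in range. -/
def rng (x x' y1 y2 y3 : ℕ) : Bool :=
  decide (x < 4) && decide (x' < 4) && decide (y1 < 4) && decide (y2 < 4) && decide (y3 < 4)

/-- Rows of the linear certificates. -/
inductive Row
  | g (k : Bool) (x x' y1 y2 y3 : ℕ) : Row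
  | d (p p' q : ℕ) : Row

/-- The step from `p` to `p'` occurs in the reversed path. -/
def isStep : List ℕ → ℕ → ℕ → Bool
  | [], _, _ => false
  | a :: l, p, p' => (match l with
      | [] => false
      | b :: _ => (a == p' && b == p)) || isStep l p p'

/-- The row is a valid inequality. -/
def Row.ok (π : List ℕ) : Row → Bool
  | .g k x x' y1 y2 y3 => rng x x' y1 y2 y3 &&
      (let u := t1 π k x x' y1 y2 y3
       !(u == 0) && t1 π k x x' y2 y3 y1 == -u && t1 π k x x' y3 y1 y2 == -u)
  | .d p p' q => isStep π p p' && adjB p q && decide (p < 16) && decide (q < 16) && before π p q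

/-- Smaller side. -/
def Row.small : Row → List ℕ
  | .g k x x' y1 y2 y3 => [code (st k x y2) (st k x y3), code (st k x y1) (st k x' y1)]
  | .d p _ q => [code p q]

/-- Bigger side. -/
def Row.big : Row → List ℕ
  | .g k x x' y1 y2 y3 => [code (st k x y1) (st k x y2), code (st k x y3) (st k x' y3)]
  | .d p p' _ => [code p p']

/-- Strict rows. -/
def Row.isG : Row → Bool
  | .g _ _ _ _ _ _ => true
  | .d _ _ _ => false

/-- Certificates. -/
inductive Cert
  | bad : Cert
  | sgn (k : Bool) (x x' y1 y2 y3 : ℕ) : Cert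
  | lp (rows : List Row) : Cert
  | node (a0 a1 a2 a3 b0 b1 b2 b3 : Cert) : Cert

/-- Labels are introduced in order. -/
def allowed (π : List ℕ) (q : ℕ) : Bool :=
  (q / 4 == 0 || π.any fun s => s / 4 + 1 == q / 4) &&
  (q % 4 == 0 || π.any fun s => s % 4 + 1 == q % 4)

/-- `q` cannot come next. -/
def skip (π : List ℕ) (q : ℕ) : Bool := π.contains q || !(allowed π q)

/-- The checker. -/
def check : Cert → List ℕ → Bool
  | .bad, _ => false
  | .sgn k x x' y1 y2 y3, π => rng x x' y1 y2 y3 &&
      (let u := t1 π k x x' y1 y2 y3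
       !(u == 0) && t1 π k x x' y2 y3 y1 == u && t1 π k x x' y3 y1 y2 == u)
  | .lp rows, π => rows.all (Row.ok π) && rows.any Row.isG &&
      (rows.flatMap Row.small).isPerm (rows.flatMap Row.big)
  | .node a0 a1 a2 a3 b0 b1 b2 b3, π => decide (π.length < 16) &&
      (match π with
       | [] => false
       | s :: _ =>
         (skip π (s % 4) || check a0 (s % 4 :: π)) &&
         (skip π (4 + s % 4) || check a1 ((4 + s % 4) :: π)) &&
         (skip π (8 + s % 4) || check a2 ((8 + s % 4) :: π)) &&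
         (skip π (12 + s % 4) || check a3 ((12 + s % 4) :: π)) &&
         (skip π (4 * (s / 4)) || check b0 (4 * (s / 4) :: π)) &&
         (skip π (4 * (s / 4) + 1) || check b1 ((4 * (s / 4) + 1) :: π)) &&
         (skip π (4 * (s / 4) + 2) || check b2 ((4 * (s / 4) + 2) :: π)) &&
         (skip π (4 * (s / 4) + 3) || check b3 ((4 * (s / 4) + 3) :: π)))

/-- The bracket of two vertices that share a coordinate. -/
def br (U W : ℕ → ℕ → ℕ → ℝ) (p q : ℕ) : ℝ :=
  if p / 4 = q / 4 then W (p / 4) (p % 4) (q % 4) else U (p % 4) (p / 4) (q / 4)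

/-- The data of a Dantzig path through all sixteen vertices. -/
structure Ham (U W : ℕ → ℕ → ℕ → ℝ) (σ : ℕ → ℕ) : Prop where
  antiU : ∀ b a a', U b a a' = - U b a' a
  antiW : ∀ a b b', W a b b' = - W a b' b
  gp0 : ∀ b b' a1 a2 a3,
    U b a1 a2 * W a3 b b' + U b a2 a3 * W a1 b b' + U b a3 a1 * W a2 b b' = 0
  gp1 : ∀ a a' b1 b2 b3,
    W a b1 b2 * U b3 a a' + W a b2 b3 * U b1 a a' + W a b3 b1 * U b2 a a' = 0
  lt16 : ∀ t ≤ 15, σ t < 16
  inj : ∀ s t, s ≤ 15 → t ≤ 15 → σ s = σ t → s = t
  adj : ∀ t < 15, adjB (σ t) (σ (t + 1)) = true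
  inc : ∀ s t, s < t → t ≤ 15 → adjB (σ s) (σ t) = true → 0 < br U W (σ s) (σ t)
  dz : ∀ t < 15, ∀ q < 16, adjB (σ t) q = true →
    br U W (σ t) q ≤ br U W (σ t) (σ (t + 1))
  canA : ∀ t ≤ 15, σ t / 4 ≠ 0 → ∃ s < t, σ s / 4 + 1 = σ t / 4
  canB : ∀ t ≤ 15, σ t % 4 ≠ 0 → ∃ s < t, σ s % 4 + 1 = σ t % 4

lemma mem_pre {σ : ℕ → ℕ} {m p : ℕ} : p ∈ pre σ m ↔ ∃ i ≤ m, σ i = p := by
  induction m with
  | zero =>
    simp only [pre, List.mem_singleton]
    constructor
    · rintro rfl; exact ⟨0, le_rfl, rfl⟩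
    · rintro ⟨i, hi, rfl⟩; rw [Nat.le_zero.1 hi]
  | succ m ih =>
    simp only [pre, List.mem_cons, ih]
    constructor
    · rintro (rfl | ⟨i, hi, rfl⟩)
      · exact ⟨m + 1, le_rfl, rfl⟩
      · exact ⟨i, by omega, rfl⟩
    · rintro ⟨i, hi, rfl⟩
      rcases Nat.lt_or_ge m i with h | h
      · left; congr 1; omega
      · right; exact ⟨i, h, rfl⟩

lemma length_pre (σ : ℕ → ℕ) (m : ℕ) : (pre σ m).length = m + 1 := by
  induction m with
  | zero => rfl
  | succ m ih => simp [pre, ih]

lemma before_sound {σ : ℕ → ℕ} {m p q : ℕ} (h : before (pre σ m) p q = true) :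
    ∃ i ≤ m, σ i = p ∧ ∀ j ≤ i, σ j ≠ q := by
  induction m with
  | zero =>
    simp only [pre, before] at h
    by_cases hp : σ 0 = p
    · simp only [hp, beq_self_eq_true, if_true, Bool.and_eq_true, Bool.not_eq_true'] at h
      refine ⟨0, le_rfl, hp, fun j hj => ?_⟩
      rw [Nat.le_zero.1 hj, hp]
      exact fun e => by simp [e] at h
    · simp [hp] at h
  | succ m ih =>
    simp only [pre, before] at h
    by_cases hp : σ (m + 1) = p
    · simp only [hp, beq_self_eq_true, if_true, Bool.and_eq_true, Bool.not_eq_true'] at h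
      refine ⟨m + 1, le_rfl, hp, fun j hj => ?_⟩
      rcases Nat.lt_or_ge m j with h1 | h1
      · have : j = m + 1 := by omega
        rw [this, hp]
        exact fun e => by simp [e] at h
      · intro e
        have h2 : q ∈ pre σ m := mem_pre.2 ⟨j, h1, e⟩
        have h3 : (pre σ m).contains q = true := by simpa using h2
        rw [h3] at h
        simp at h
    · have hp' : (σ (m + 1) == p) = false := by simpa using hp
      rw [hp'] at h
      simp only [Bool.false_eq_true, if_false] at h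
      obtain ⟨i, hi, h1, h2⟩ := ih h
      exact ⟨i, by omega, h1, h2⟩

lemma isStep_sound {σ : ℕ → ℕ} {m p p' : ℕ} (h : isStep (pre σ m) p p' = true) :
    ∃ i < m, σ i = p ∧ σ (i + 1) = p' := by
  induction m with
  | zero => simp [pre, isStep] at h
  | succ m ih =>
    simp only [pre, isStep, Bool.or_eq_true] at h
    rcases h with h | h
    · have : ∃ l, pre σ m = σ m :: l := by
        cases m with
        | zero => exact ⟨[], rfl⟩
        | succ m => exact ⟨_, rfl⟩
      obtain ⟨l, hl⟩ := this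
      rw [hl] at h
      simp only [Bool.and_eq_true, beq_iff_eq] at h
      exact ⟨m, by omega, h.2, h.1⟩
    · obtain ⟨i, hi, h1, h2⟩ := ih h
      exact ⟨i, by omega, h1, h2⟩

namespace Ham

variable {U W : ℕ → ℕ → ℕ → ℝ} {σ : ℕ → ℕ} (H : Ham U W σ)

include H

lemma surj {q : ℕ} (hq : q < 16) : ∃ t ≤ 15, σ t = q := by
  let f : Fin 16 → Fin 16 := fun t => ⟨σ t.1, H.lt16 t.1 (by omega)⟩
  have hf : Function.Injective f := by
    intro s t hst
    have := H.inj s.1 t.1 (by omega) (by omega) (congrArg Fin.val hst)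
    exact Fin.ext this
  obtain ⟨t, ht⟩ := Finite.injective_iff_surjective.1 hf ⟨q, hq⟩
  exact ⟨t.1, by omega, congrArg Fin.val ht⟩

lemma pos_of_before {m p q : ℕ} (hm : m ≤ 15) (hq : q < 16) (ha : adjB p q = true)
    (h : before (pre σ m) p q = true) : 0 < br U W p q := by
  obtain ⟨i, hi, hp, hj⟩ := before_sound h
  obtain ⟨t, ht, rfl⟩ := H.surj hq
  subst hp
  apply H.inc i t _ ht ha
  by_contra hcon
  exact hj t (by omega) rfl

lemma br_symm {p q : ℕ} (ha : adjB p q = true) : br U W q p = - br U W p q := by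
  unfold adjB at ha
  unfold br
  by_cases h1 : p / 4 = q / 4
  · rw [if_pos h1, if_pos h1.symm, h1, H.antiW]
  · rw [if_neg h1, if_neg (Ne.symm h1)]
    have h2 : p % 4 = q % 4 := by
      by_contra h2
      simp [h1, h2] at ha
    rw [h2, H.antiU]

omit H in
lemma adjB_symm {p q : ℕ} (ha : adjB p q = true) : adjB q p = true := by
  unfold adjB at *
  rw [bne_iff_ne] at *
  intro h
  apply ha
  rw [BEq.comm (a := p / 4), BEq.comm (a := p % 4)]
  exact h

lemma sg_sound {m p q : ℕ} (hm : m ≤ 15) (hp : p < 16) (hq : q < 16)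
    (h : sg (pre σ m) p q ≠ 0) : 0 < (sg (pre σ m) p q : ℝ) * br U W p q := by
  unfold sg at *
  split_ifs at h ⊢ with h1 h2 h3
  · have := H.pos_of_before hm hq h1 h2
    simpa using this
  · have := H.pos_of_before hm hp (adjB_symm h1) h3
    rw [H.br_symm h1] at this
    simpa using this
  · exact absurd rfl h
  · exact absurd rfl h

lemma gpB (k : Bool) {x x' y1 y2 y3 : ℕ} (h : rng x x' y1 y2 y3 = true) :
    br U W (st k x y1) (st k x y2) * br U W (st k x y3) (st k x' y3) +
    br U W (st k x y2) (st k x y3) * br U W (st k x y1) (st k x' y1) +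
    br U W (st k x y3) (st k x y1) * br U W (st k x y2) (st k x' y2) = 0 := by
  simp only [rng, Bool.and_eq_true, decide_eq_true_eq] at h
  obtain ⟨⟨⟨⟨hx, hx'⟩, h1⟩, h2⟩, h3⟩ := h
  have hU0 : ∀ b a, U b a a = 0 := fun b a => by have := H.antiU b a a; linarith
  have hW0 : ∀ b a, W b a a = 0 := fun b a => by have := H.antiW b a a; linarith
  cases k with
  | false =>
    have e1 : ∀ y z, y < 4 → z < 4 → br U W (st false x y) (st false x z) = U x y z := by
      intro y z hy hz
      simp only [st, br, Bool.false_eq_true, if_false]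
      have a1 : (4 * y + x) / 4 = y := by omega
      have a2 : (4 * z + x) / 4 = z := by omega
      have a3 : (4 * y + x) % 4 = x := by omega
      have a4 : (4 * z + x) % 4 = x := by omega
      rw [a1, a2, a3, a4]
      split_ifs with h
      · rw [h, hU0, hW0]
      · rfl
    have e2 : ∀ y, y < 4 → br U W (st false x y) (st false x' y) = W y x x' := by
      intro y hy
      simp only [st, br, Bool.false_eq_true, if_false]
      have a1 : (4 * y + x) / 4 = y := by omega
      have a2 : (4 * y + x') / 4 = y := by omega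
      have a3 : (4 * y + x) % 4 = x := by omega
      have a4 : (4 * y + x') % 4 = x' := by omega
      rw [a1, a2, a3, a4, if_pos rfl]
    rw [e1 _ _ h1 h2, e1 _ _ h2 h3, e1 _ _ h3 h1, e2 _ h3, e2 _ h1, e2 _ h2]
    exact H.gp0 x x' y1 y2 y3
  | true =>
    have e1 : ∀ y z, y < 4 → z < 4 → br U W (st true x y) (st true x z) = W x y z := by
      intro y z hy hz
      simp only [st, br, if_true]
      have a1 : (4 * x + y) / 4 = x := by omega
      have a2 : (4 * x + z) / 4 = x := by omega
      have a3 : (4 * x + y) % 4 = y := by omega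
      have a4 : (4 * x + z) % 4 = z := by omega
      rw [a1, a2, a3, a4, if_pos rfl]
    have e2 : ∀ y, y < 4 → br U W (st true x y) (st true x' y) = U y x x' := by
      intro y hy
      simp only [st, br, if_true]
      have a1 : (4 * x + y) / 4 = x := by omega
      have a2 : (4 * x' + y) / 4 = x' := by omega
      have a3 : (4 * x + y) % 4 = y := by omega
      have a4 : (4 * x' + y) % 4 = y := by omega
      rw [a1, a2, a3, a4]
      split_ifs with h
      · rw [h, hU0, hW0]
      · rfl
    rw [e1 _ _ h1 h2, e1 _ _ h2 h3, e1 _ _ h3 h1, e2 _ h3, e2 _ h1, e2 _ h2]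
    exact H.gp1 x x' y1 y2 y3

omit H in
lemma st_lt {k : Bool} {x y : ℕ} (hx : x < 4) (hy : y < 4) : st k x y < 16 := by
  unfold st; split_ifs <;> omega

/-- Sign of a term. -/
lemma t1_sound {m : ℕ} (hm : m ≤ 15) (k : Bool) {x x' y1 y2 y3 : ℕ}
    (h : rng x x' y1 y2 y3 = true) (h0 : t1 (pre σ m) k x x' y1 y2 y3 ≠ 0) :
    0 < (t1 (pre σ m) k x x' y1 y2 y3 : ℝ) *
      (br U W (st k x y1) (st k x y2) * br U W (st k x y3) (st k x' y3)) ∧
    br U W (st k x y1) (st k x y2) ≠ 0 ∧ br U W (st k x y3) (st k x' y3) ≠ 0 := by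
  simp only [rng, Bool.and_eq_true, decide_eq_true_eq] at h
  obtain ⟨⟨⟨⟨hx, hx'⟩, h1⟩, h2⟩, h3⟩ := h
  unfold t1 at *
  have n1 : sg (pre σ m) (st k x y1) (st k x y2) ≠ 0 := left_ne_zero_of_mul h0
  have n2 : sg (pre σ m) (st k x y3) (st k x' y3) ≠ 0 := right_ne_zero_of_mul h0
  have p1 := H.sg_sound hm (st_lt hx h1) (st_lt hx h2) n1
  have p2 := H.sg_sound hm (st_lt hx h3) (st_lt hx' h3) n2
  refine ⟨?_, ?_, ?_⟩
  · have := mul_pos p1 p2
    push_cast
    calc 0 < _ := this
      _ = _ := by ring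
  · intro e; rw [e, mul_zero] at p1; exact lt_irrefl _ p1
  · intro e; rw [e, mul_zero] at p2; exact lt_irrefl _ p2

omit H in
lemma t1_cases (π : List ℕ) (k : Bool) (x x' y1 y2 y3 : ℕ) :
    t1 π k x x' y1 y2 y3 = 1 ∨ t1 π k x x' y1 y2 y3 = -1 ∨ t1 π k x x' y1 y2 y3 = 0 := by
  have : ∀ p q, sg π p q = 1 ∨ sg π p q = -1 ∨ sg π p q = 0 := by
    intro p q; unfold sg; split_ifs <;> simp
  unfold t1
  rcases this (st k x y1) (st k x y2) with h | h | h <;>
    rcases this (st k x y3) (st k x' y3) with h' | h' | h' <;> rw [h, h'] <;> simp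

omit H in
lemma rng_rot {x x' y1 y2 y3 : ℕ} (h : rng x x' y1 y2 y3 = true) :
    rng x x' y2 y3 y1 = true := by
  simp only [rng, Bool.and_eq_true, decide_eq_true_eq] at *
  tauto

/-- Log of the absolute value of the bracket with given code. -/
noncomputable def lg (U W : ℕ → ℕ → ℕ → ℝ) (c : ℕ) : ℝ :=
  Real.log |br U W (c / 16) (c % 16)|

lemma lg_code {p q : ℕ} (hp : p < 16) (hq : q < 16) (ha : adjB p q = true) :
    lg U W (code p q) = Real.log |br U W p q| := by
  unfold lg code
  split_ifs with h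
  · have e1 : (16 * p + q) / 16 = p := by omega
    have e2 : (16 * p + q) % 16 = q := by omega
    rw [e1, e2]
  · have e1 : (16 * q + p) / 16 = q := by omega
    have e2 : (16 * q + p) % 16 = p := by omega
    rw [e1, e2, H.br_symm ha, abs_neg]

omit H in
lemma adjB_of_sg {π : List ℕ} {p q : ℕ} (h : sg π p q ≠ 0) : adjB p q = true := by
  unfold sg at h
  by_contra hc
  simp [hc] at h

/-- Validity of the rows. -/
lemma row_sound {m : ℕ} (hm : m ≤ 15) (r : Row) (h : r.ok (pre σ m) = true) :
    ((r.small.map (lg U W)).sum ≤ (r.big.map (lg U W)).sum) ∧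
    (r.isG = true → (r.small.map (lg U W)).sum < (r.big.map (lg U W)).sum) := by
  cases r with
  | g k x x' y1 y2 y3 =>
    simp only [Row.ok, Bool.and_eq_true, Bool.not_eq_true', beq_eq_false_iff_ne, beq_iff_eq] at h
    obtain ⟨hr, ⟨hu0, hu2⟩, hu3⟩ := h
    have hu2' : t1 (pre σ m) k x x' y2 y3 y1 ≠ 0 := by rw [hu2]; simpa using hu0
    have hu3' : t1 (pre σ m) k x x' y3 y1 y2 ≠ 0 := by rw [hu3]; simpa using hu0
    obtain ⟨s1, n1, n1'⟩ := H.t1_sound hm k hr hu0
    obtain ⟨s2, n2, n2'⟩ := H.t1_sound hm k (rng_rot hr) hu2'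
    obtain ⟨s3, -, -⟩ := H.t1_sound hm k (rng_rot (rng_rot hr)) hu3'
    have hgp := H.gpB k hr
    have hr2 := hr
    simp only [rng, Bool.and_eq_true, decide_eq_true_eq] at hr2
    obtain ⟨⟨⟨⟨hx, hx'⟩, h1⟩, h2⟩, h3⟩ := hr2
    have a1 : adjB (st k x y1) (st k x y2) = true := adjB_of_sg (left_ne_zero_of_mul hu0)
    have a1' : adjB (st k x y3) (st k x' y3) = true := adjB_of_sg (right_ne_zero_of_mul hu0)
    have a2 : adjB (st k x y2) (st k x y3) = true := adjB_of_sg (left_ne_zero_of_mul hu2')
    have a2' : adjB (st k x y1) (st k x' y1) = true := adjB_of_sg (right_ne_zero_of_mul hu2')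
    have key : ((Row.g k x x' y1 y2 y3).small.map (lg U W)).sum <
        ((Row.g k x x' y1 y2 y3).big.map (lg U W)).sum := by
      simp only [Row.small, Row.big, List.map_cons, List.map_nil, List.sum_cons, List.sum_nil,
        add_zero]
      rw [H.lg_code (st_lt hx h1) (st_lt hx h2) a1, H.lg_code (st_lt hx h3) (st_lt hx' h3) a1',
        H.lg_code (st_lt hx h2) (st_lt hx h3) a2, H.lg_code (st_lt hx h1) (st_lt hx' h1) a2',
        ← Real.log_mul (abs_pos.2 n2).ne' (abs_pos.2 n2').ne',
        ← Real.log_mul (abs_pos.2 n1).ne' (abs_pos.2 n1').ne', ← abs_mul, ← abs_mul]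
      apply Real.log_lt_log (abs_pos.2 (mul_ne_zero n2 n2'))
      set T1 := br U W (st k x y1) (st k x y2) * br U W (st k x y3) (st k x' y3)
      set T2 := br U W (st k x y2) (st k x y3) * br U W (st k x y1) (st k x' y1)
      set T3 := br U W (st k x y3) (st k x y1) * br U W (st k x y2) (st k x' y2)
      rw [hu2] at s2
      rw [hu3] at s3
      push_cast at s2 s3
      rcases t1_cases (pre σ m) k x x' y1 y2 y3 with hc | hc | hc
      · rw [hc] at s1 s2 s3
        push_cast at s1 s2 s3
        rw [abs_of_pos (show 0 < T1 by linarith), abs_of_neg (show T2 < 0 by linarith)]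
        linarith
      · rw [hc] at s1 s2 s3
        push_cast at s1 s2 s3
        rw [abs_of_neg (show T1 < 0 by linarith), abs_of_pos (show 0 < T2 by linarith)]
        linarith
      · exact absurd hc hu0
    exact ⟨key.le, fun _ => key⟩
  | d p p' q =>
    simp only [Row.ok, Bool.and_eq_true, decide_eq_true_eq] at h
    obtain ⟨⟨⟨⟨h1, h2⟩, h3⟩, h4⟩, h5⟩ := h
    refine ⟨?_, fun h => by simp [Row.isG] at h⟩
    obtain ⟨i, hi, rfl, rfl⟩ := isStep_sound h1
    simp only [Row.small, Row.big, List.map_cons, List.map_nil, List.sum_cons, List.sum_nil,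
      add_zero]
    have hpos := H.pos_of_before hm h4 h2 h5
    have hdz := H.dz i (by omega) q h4 h2
    rw [H.lg_code h3 h4 h2, H.lg_code h3 (H.lt16 _ (by omega)) (H.adj i (by omega)),
      abs_of_pos hpos, abs_of_pos (hpos.trans_le hdz)]
    exact Real.log_le_log hpos hdz

lemma rows_le {m : ℕ} (hm : m ≤ 15) (rows : List Row)
    (h : rows.all (Row.ok (pre σ m)) = true) :
    ((rows.flatMap Row.small).map (lg U W)).sum ≤ ((rows.flatMap Row.big).map (lg U W)).sum := by
  induction rows with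
  | nil => simp
  | cons r rows ih =>
    simp only [List.all_cons, Bool.and_eq_true] at h
    simp only [List.flatMap_cons, List.map_append, List.sum_append]
    exact add_le_add (H.row_sound hm r h.1).1 (ih h.2)

lemma rows_lt {m : ℕ} (hm : m ≤ 15) (rows : List Row)
    (h : rows.all (Row.ok (pre σ m)) = true) (hg : rows.any Row.isG = true) :
    ((rows.flatMap Row.small).map (lg U W)).sum < ((rows.flatMap Row.big).map (lg U W)).sum := by
  induction rows with
  | nil => simp at hg
  | cons r rows ih =>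
    simp only [List.all_cons, Bool.and_eq_true] at h
    simp only [List.any_cons, Bool.or_eq_true] at hg
    simp only [List.flatMap_cons, List.map_append, List.sum_append]
    rcases hg with hg | hg
    · exact add_lt_add_of_lt_of_le ((H.row_sound hm r h.1).2 hg) (H.rows_le hm rows h.2)
    · exact add_lt_add_of_le_of_lt (H.row_sound hm r h.1).1 (ih h.2 hg)

lemma not_skip {m : ℕ} (hm : m < 15) : skip (pre σ m) (σ (m + 1)) = false := by
  unfold skip
  rw [Bool.or_eq_false_iff]
  constructor
  · rw [← Bool.not_eq_true]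
    intro hc
    have hc : σ (m + 1) ∈ pre σ m := by simpa using hc
    obtain ⟨i, hi, he⟩ := mem_pre.1 hc
    have := H.inj i (m + 1) (by omega) (by omega) he
    omega
  · simp only [allowed, Bool.not_eq_false', Bool.and_eq_true, Bool.or_eq_true, beq_iff_eq,
      List.any_eq_true]
    constructor
    · by_cases h0 : σ (m + 1) / 4 = 0
      · exact Or.inl h0
      · obtain ⟨s, hs, he⟩ := H.canA (m + 1) (by omega) h0
        exact Or.inr ⟨σ s, mem_pre.2 ⟨s, by omega, rfl⟩, he⟩
    · by_cases h0 : σ (m + 1) % 4 = 0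
      · exact Or.inl h0
      · obtain ⟨s, hs, he⟩ := H.canB (m + 1) (by omega) h0
        exact Or.inr ⟨σ s, mem_pre.2 ⟨s, by omega, rfl⟩, he⟩

omit H in
lemma pre_cons (σ : ℕ → ℕ) (m : ℕ) : ∃ l, pre σ m = σ m :: l := by
  cases m with
  | zero => exact ⟨[], rfl⟩
  | succ m => exact ⟨_, rfl⟩

/-- Soundness of the checker. -/
theorem check_sound (c : Cert) : ∀ m ≤ 15, check c (pre σ m) = true → False := by
  induction c with
  | bad => intro m _ h; simp [check] at h
  | sgn k x x' y1 y2 y3 =>
    intro m hm h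
    simp only [check, Bool.and_eq_true, Bool.not_eq_true', beq_eq_false_iff_ne, beq_iff_eq] at h
    obtain ⟨hr, ⟨hu0, hu2⟩, hu3⟩ := h
    have hu2' : t1 (pre σ m) k x x' y2 y3 y1 ≠ 0 := by rw [hu2]; exact hu0
    have hu3' : t1 (pre σ m) k x x' y3 y1 y2 ≠ 0 := by rw [hu3]; exact hu0
    obtain ⟨s1, -, -⟩ := H.t1_sound hm k hr hu0
    obtain ⟨s2, -, -⟩ := H.t1_sound hm k (rng_rot hr) hu2'
    obtain ⟨s3, -, -⟩ := H.t1_sound hm k (rng_rot (rng_rot hr)) hu3'
    have hgp := H.gpB k hr
    rw [hu2] at s2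
    rw [hu3] at s3
    rcases t1_cases (pre σ m) k x x' y1 y2 y3 with hc | hc | hc
    · rw [hc] at s1 s2 s3
      push_cast at s1 s2 s3
      linarith
    · rw [hc] at s1 s2 s3
      push_cast at s1 s2 s3
      linarith
    · exact absurd hc hu0
  | lp rows =>
    intro m hm h
    simp only [check, Bool.and_eq_true] at h
    obtain ⟨⟨h1, h2⟩, h3⟩ := h
    have hlt := H.rows_lt hm rows h1 h2
    have hperm := List.isPerm_iff.1 h3
    have := (hperm.map (lg U W)).sum_eq
    rw [this] at hlt
    exact lt_irrefl _ hlt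
  | node a0 a1 a2 a3 b0 b1 b2 b3 ia0 ia1 ia2 ia3 ib0 ib1 ib2 ib3 =>
    intro m hm h
    obtain ⟨l, hl⟩ := pre_cons σ m
    have hlen := length_pre σ m
    simp only [check] at h
    rw [hl] at h
    simp only [Bool.and_eq_true, decide_eq_true_eq, Bool.or_eq_true] at h
    rw [← hl, hlen] at h
    obtain ⟨hm', ⟨⟨⟨⟨⟨⟨⟨h0, h1⟩, h2⟩, h3⟩, h4⟩, h5⟩, h6⟩, h7⟩⟩ := h
    have hm15 : m < 15 := by omega
    have hs := H.not_skip hm15
    have hlt := H.lt16 (m + 1) (by omega)
    have hlt0 := H.lt16 m (by omega)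
    have hadj := H.adj m hm15
    have hnext : ∀ c : Cert, ∀ q, (∀ m ≤ 15, check c (pre σ m) = true → False) →
        (skip (pre σ m) q = true ∨ check c (q :: pre σ m) = true) → σ (m + 1) = q → False := by
      intro c q ih h he
      rw [← he] at h
      rcases h with h | h
      · rw [hs] at h; exact Bool.false_ne_true h
      · exact ih (m + 1) (by omega) h
    unfold adjB at hadj
    by_cases hq : σ m / 4 = σ (m + 1) / 4
    · have hq2 : σ (m + 1) = 4 * (σ m / 4) ∨ σ (m + 1) = 4 * (σ m / 4) + 1 ∨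
          σ (m + 1) = 4 * (σ m / 4) + 2 ∨ σ (m + 1) = 4 * (σ m / 4) + 3 := by omega
      rcases hq2 with e | e | e | e
      · exact hnext b0 _ ib0 h4 e
      · exact hnext b1 _ ib1 h5 e
      · exact hnext b2 _ ib2 h6 e
      · exact hnext b3 _ ib3 h7 e
    · have hr : σ m % 4 = σ (m + 1) % 4 := by
        by_contra hr
        simp [hq, hr] at hadj
      have hq2 : σ (m + 1) = σ m % 4 ∨ σ (m + 1) = 4 + σ m % 4 ∨
          σ (m + 1) = 8 + σ m % 4 ∨ σ (m + 1) = 12 + σ m % 4 := by omega
      rcases hq2 with e | e | e | e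
      · exact hnext a0 _ ia0 h0 e
      · exact hnext a1 _ ia1 h1 e
      · exact hnext a2 _ ia2 h2 e
      · exact hnext a3 _ ia3 h3 e

lemma start : σ 0 = 0 := by
  have h1 : σ 0 / 4 = 0 := by
    by_contra h
    obtain ⟨s, hs, -⟩ := H.canA 0 (by omega) h
    omega
  have h2 : σ 0 % 4 = 0 := by
    by_contra h
    obtain ⟨s, hs, -⟩ := H.canB 0 (by omega) h
    omega
  omega

theorem false_of_check (c : Cert) (h : check c [0] = true) : False := by
  apply H.check_sound c 0 (by omega)
  rw [pre, H.start]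
  exact h

end Ham

end Pool.Agent.Lib.MP_dd1a29_co
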