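import Mathlib

/-!
Definitions for MP_dd1a29_co (steep height versus simplex height of simple polytopes).
-/

namespace Pool.Agent.Lib.MP_dd1a29_co

/-- Euclidean `d`-space. -/
abbrev E (d : ℕ) := EuclideanSpace ℝ (Fin d)

/-- The polyhedron `{x | φ i x ≥ 0 for all i}`. -/
def body {d n : ℕ} (φ : Fin n → (E d →ᵃ[ℝ] ℝ)) : Set (E d) := {x | ∀ i, 0 ≤ φ i x}

/-- `body φ` is a simple `d`-polytope with exactly `n` facets, the facets being the sets
`{x ∈ body φ | φ i x = 0}`: it is bounded and has interior points; every `φ i` is nonconstant and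
vanishes at some point of the polytope at which all the other `φ j` are positive (so the `n`
facets are distinct and none of the inequalities is redundant); and every vertex lies in exactly
`d` facets.  So `φ` is a simple polytope together with an admissible choice of the functions
`φ_F`. -/
structure IsSimplePolytope {d n : ℕ} (φ : Fin n → (E d →ᵃ[ℝ] ℝ)) : Prop where
  bounded : Bornology.IsBounded (body φ)
  solid : (interior (body φ)).Nonempty
  facet : ∀ i, (φ i).linear ≠ 0 ∧ ∃ x ∈ body φ, φ i x = 0 ∧ ∀ j, j ≠ i → 0 < φ j x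
  simple : ∀ v ∈ (body φ).extremePoints ℝ, (Finset.univ.filter fun i => φ i v = 0).card = d

/-- `v` and `w` are distinct vertices of `P` joined by an edge (the segment `[v, w]` is a face). -/
def Adj {d : ℕ} (P : Set (E d)) (v w : E d) : Prop :=
  v ∈ P.extremePoints ℝ ∧ w ∈ P.extremePoints ℝ ∧ v ≠ w ∧ IsExtreme ℝ P (segment ℝ v w)

/-- `x 0, x 1, …, x k` is a steep `ℓ`-path of length `k` on `P`. -/
def IsSteepPath {d : ℕ} (P : Set (E d)) (ℓ : E d →ₗ[ℝ] ℝ) (k : ℕ) (x : ℕ → E d) : Prop :=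
  x 0 ∈ P.extremePoints ℝ ∧
  ∀ i < k, Adj P (x i) (x (i + 1)) ∧ ℓ (x i) < ℓ (x (i + 1)) ∧
    ∀ w, Adj P (x i) w →
      (ℓ w - ℓ (x i)) / ‖w - x i‖ ≤ (ℓ (x (i + 1)) - ℓ (x i)) / ‖x (i + 1) - x i‖

/-- `x 0, x 1, …, x k` is a simplex (Dantzig) `ℓ`-path of length `k` on `body φ`, relative to the
chosen family `φ`. The index `f` with `φ f (x i) = 0 < φ f w` is the unique one with that
property when `w` is adjacent to `x i`. -/
def IsSimplexPath {d n : ℕ} (φ : Fin n → (E d →ᵃ[ℝ] ℝ)) (ℓ : E d →ₗ[ℝ] ℝ) (k : ℕ)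
    (x : ℕ → E d) : Prop :=
  x 0 ∈ (body φ).extremePoints ℝ ∧
  ∀ i < k, Adj (body φ) (x i) (x (i + 1)) ∧ ℓ (x i) < ℓ (x (i + 1)) ∧
    ∀ w, Adj (body φ) (x i) w → ∀ f g, φ f (x i) = 0 → 0 < φ f w →
      φ g (x i) = 0 → 0 < φ g (x (i + 1)) →
      (ℓ w - ℓ (x i)) / φ f w ≤ (ℓ (x (i + 1)) - ℓ (x i)) / φ g (x (i + 1))

/-- `M(ζ, d, n)`: the largest length of a steep path on a simple `d`-polytope with `n` facets. -/
noncomputable def steepMax (d n : ℕ) : ℕ∞ :=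
  ⨆ (φ : Fin n → (E d →ᵃ[ℝ] ℝ)) (_ : IsSimplePolytope φ) (ℓ : E d →ₗ[ℝ] ℝ) (k : ℕ)
    (x : ℕ → E d) (_ : IsSteepPath (body φ) ℓ k x), (k : ℕ∞)

/-- `M(τ, d, n)`: the largest length of a simplex path on a simple `d`-polytope with `n`
facets. -/
noncomputable def simplexMax (d n : ℕ) : ℕ∞ :=
  ⨆ (φ : Fin n → (E d →ᵃ[ℝ] ℝ)) (_ : IsSimplePolytope φ) (ℓ : E d →ₗ[ℝ] ℝ) (k : ℕ)
    (x : ℕ → E d) (_ : IsSimplexPath φ ℓ k x), (k : ℕ∞)

end Pool.Agent.Lib.MP_dd1a29_co
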