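import Pool.Agent.Lib.MP_dd1a29_co.Upper

/-!
Explicit simple 6-polytopes with 8 facets, given by integer data.
-/

namespace Pool.Agent.Lib.MP_dd1a29_co

open Finset Module

/-- Integer data: the embedding `z ↦ ∑ i, P · i * z i` of `{∑ z = 1, ∑ X z = 0}` into `ℝ⁶` and
its inverse `x ↦ (B0 i + ∑ j, B i j * x j) / D`. -/
structure Data where
  X : Fin 8 → ℤ
  P : Fin 6 → Fin 8 → ℤ
  B0 : Fin 8 → ℤ
  B1 : Fin 8 → ℤ
  B : Fin 8 → Fin 6 → ℤ
  D : ℤ

/-- Positive vectors in `{∑ X z = 0}` that vanish exactly at `i`. -/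
def facetVec (X : Fin 8 → ℤ) (i j : Fin 8) : ℤ :=
  if j = i then 0 else
    if X j < 0 then ∑ r, (if r ≠ i ∧ 0 < X r then X r else 0)
    else - ∑ r, (if r ≠ i ∧ X r < 0 then X r else 0)

/-- The data are consistent. -/
structure Data.Good (δ : Data) : Prop where
  D0 : 0 < δ.D
  X0 : ∀ i, δ.X i ≠ 0
  s0 : ∑ i, δ.B0 i = δ.D
  s1 : ∀ j, ∑ i, δ.B i j = 0
  x0 : ∑ i, δ.X i * δ.B0 i = 0
  x1 : ∀ j, ∑ i, δ.X i * δ.B i j = 0
  p0 : ∀ k, ∑ i, δ.P k i * δ.B0 i = 0
  p1 : ∀ k j, ∑ i, δ.P k i * δ.B i j = if k = j then δ.D else 0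
  inv : ∀ i l, δ.B0 i + δ.B1 i * δ.X l + ∑ k, δ.B i k * δ.P k l = if i = l then δ.D else 0
  fv : ∀ i, (∀ j, j ≠ i → 0 < facetVec δ.X i j) ∧ ∑ j, δ.X j * facetVec δ.X i j = 0

/-- An affine function with given coefficients. -/
noncomputable def aff (c : ℝ) (r : Fin 6 → ℝ) : E 6 →ᵃ[ℝ] ℝ where
  toFun x := c + ∑ j, r j * x j
  linear :=
    { toFun := fun x => ∑ j, r j * x j
      map_add' := fun x y => by
        rw [← Finset.sum_add_distrib]
        exact Finset.sum_congr rfl fun j _ => by simp only [PiLp.add_apply]; ring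
      map_smul' := fun s x => by
        rw [RingHom.id_apply, smul_eq_mul, Finset.mul_sum]
        exact Finset.sum_congr rfl fun j _ => by
          simp only [PiLp.smul_apply, smul_eq_mul]; ring }
  map_vadd' x v := by
    simp only [vadd_eq_add, LinearMap.coe_mk, AddHom.coe_mk]
    have : ∑ j, r j * (v + x) j = ∑ j, r j * v j + ∑ j, r j * x j := by
      rw [← Finset.sum_add_distrib]
      exact Finset.sum_congr rfl fun j _ => by simp only [PiLp.add_apply]; ring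
    rw [this]; ring

lemma aff_apply (c : ℝ) (r : Fin 6 → ℝ) (x : E 6) : aff c r x = c + ∑ j, r j * x j := rfl

namespace Data

variable (δ : Data)

/-- The coordinates. -/
noncomputable def y (i : Fin 8) : E 6 →ᵃ[ℝ] ℝ :=
  aff ((δ.B0 i : ℝ) / δ.D) (fun j => (δ.B i j : ℝ) / δ.D)

/-- Real version of `X`. -/
noncomputable def XR (i : Fin 8) : ℝ := δ.X i

lemma y_apply (i : Fin 8) (x : E 6) :
    δ.y i x = ((δ.B0 i : ℝ) + ∑ j, (δ.B i j : ℝ) * x j) / δ.D := by
  rw [y, aff_apply, add_div, Finset.sum_div]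
  congr 1
  exact Finset.sum_congr rfl fun j _ => by ring

variable {δ} (G : δ.Good)

include G

lemma DR : (0 : ℝ) < δ.D := by exact_mod_cast G.D0

/-- Sum with integer coefficients of the coordinates. -/
lemma comb_y (v : Fin 8 → ℤ) (x : E 6) :
    ∑ i, (v i : ℝ) * δ.y i x =
      (((∑ i, v i * δ.B0 i : ℤ) : ℝ) + ∑ j, ((∑ i, v i * δ.B i j : ℤ) : ℝ) * x j) / δ.D := by
  have hD := (DR G).ne'
  rw [eq_div_iff hD, Finset.sum_mul]
  have h1 : ∀ i, (v i : ℝ) * δ.y i x * δ.D =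
      (v i : ℝ) * δ.B0 i + ∑ j, (v i : ℝ) * δ.B i j * x j := by
    intro i
    rw [y_apply, mul_assoc, div_mul_cancel₀ _ hD, mul_add, Finset.mul_sum]
    congr 1
    exact Finset.sum_congr rfl fun j _ => by ring
  simp only [h1]
  rw [Finset.sum_add_distrib, Finset.sum_comm]
  push_cast
  congr 1
  exact Finset.sum_congr rfl fun j _ => by rw [Finset.sum_mul]

lemma coord (k : Fin 6) (x : E 6) : ∑ i, (δ.P k i : ℝ) * δ.y i x = x k := by
  rw [comb_y G, G.p0 k]
  have h1 : ∀ j, ((∑ i, δ.P k i * δ.B i j : ℤ) : ℝ) * x j =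
      if k = j then (δ.D : ℝ) * x j else 0 := by
    intro j
    rw [G.p1 k j]
    split_ifs <;> simp
  simp only [h1]
  have hD := (DR G).ne'
  rw [Finset.sum_ite_eq]
  simp only [Finset.mem_univ, if_true]
  push_cast
  field_simp
  ring

/-- The point with given coordinates. -/
noncomputable def pt (δ : Data) (z : Fin 8 → ℝ) : E 6 :=
  WithLp.toLp 2 fun k => ∑ i, (δ.P k i : ℝ) * z i

omit G in
lemma pt_apply (z : Fin 8 → ℝ) (k : Fin 6) : pt δ z k = ∑ i, (δ.P k i : ℝ) * z i := rfl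

lemma y_pt (z : Fin 8 → ℝ) (h1 : ∑ i, z i = 1) (h2 : ∑ i, (δ.X i : ℝ) * z i = 0) (i : Fin 8) :
    δ.y i (pt δ z) = z i := by
  have hD := (DR G).ne'
  rw [y_apply, div_eq_iff hD]
  simp only [pt_apply]
  have e1 : ∑ j, (δ.B i j : ℝ) * ∑ l, (δ.P j l : ℝ) * z l =
      ∑ l, (∑ j, (δ.B i j : ℝ) * δ.P j l) * z l := by
    simp only [Finset.mul_sum]
    rw [Finset.sum_comm]
    exact Finset.sum_congr rfl fun l _ => by
      rw [Finset.sum_mul]; exact Finset.sum_congr rfl fun j _ => by ring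
  have e2 : ∀ l, (δ.B0 i : ℝ) + δ.B1 i * δ.X l + ∑ j, (δ.B i j : ℝ) * δ.P j l =
      if i = l then (δ.D : ℝ) else 0 := by
    intro l
    have := G.inv i l
    have h : (((δ.B0 i + δ.B1 i * δ.X l + ∑ k, δ.B i k * δ.P k l : ℤ)) : ℝ) =
        ((if i = l then δ.D else 0 : ℤ) : ℝ) := by rw [this]
    push_cast at h
    rw [h]
  have e3 : ∑ l, (∑ j, (δ.B i j : ℝ) * δ.P j l) * z l =
      ∑ l, ((if i = l then (δ.D : ℝ) else 0) * z l) - (δ.B0 i : ℝ) * ∑ l, z l -
        δ.B1 i * ∑ l, (δ.X l : ℝ) * z l := by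
    rw [Finset.mul_sum, Finset.mul_sum, ← Finset.sum_sub_distrib, ← Finset.sum_sub_distrib]
    exact Finset.sum_congr rfl fun l _ => by rw [← e2 l]; ring
  rw [e1, e3, h1, h2]
  simp only [ite_mul, zero_mul, Finset.sum_ite_eq, Finset.mem_univ, if_true]
  ring

theorem sys : Sys δ.y δ.XR where
  sum1 x := by
    have h := comb_y G (fun _ => 1) x
    simp only [Int.cast_one, one_mul] at h
    rw [h, G.s0]
    have : ∀ j, ((∑ i, δ.B i j : ℤ) : ℝ) = 0 := fun j => by rw [G.s1 j]; simp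
    simp only [this]
    have hD := (DR G).ne'
    simp [hD]
  sumX x := by
    have h := comb_y G δ.X x
    unfold XR
    rw [h, G.x0]
    have : ∀ j, ((∑ i, δ.X i * δ.B i j : ℤ) : ℝ) = 0 := fun j => by rw [G.x1 j]; simp
    simp only [this]
    simp
  inj x x' h := by
    ext k
    rw [← coord G k x, ← coord G k x']
    exact Finset.sum_congr rfl fun i _ => by rw [h i]
  surj z h1 h2 := ⟨pt δ z, y_pt G z h1 h2⟩
  ne0 i := by unfold XR; exact_mod_cast G.X0 i

lemma body_bounded : Bornology.IsBounded (body δ.y) := by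
  have hcont : Continuous (pt δ) := by
    have : pt δ = (fun f : Fin 6 → ℝ => WithLp.toLp 2 f) ∘
        (fun z : Fin 8 → ℝ => fun k => ∑ i, (δ.P k i : ℝ) * z i) := rfl
    rw [this]
    apply (PiLp.continuous_toLp 2 _).comp
    fun_prop
  have hcomp : IsCompact (pt δ '' stdSimplex ℝ (Fin 8)) :=
    (isCompact_stdSimplex ℝ (Fin 8)).image hcont
  apply hcomp.isBounded.subset
  intro x hx
  refine ⟨fun i => δ.y i x, ⟨hx, (sys G).sum1 x⟩, ?_⟩
  ext k
  rw [pt_apply, coord G k x]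

/-- A point of the facet `i` only. -/
lemma facet_point (i : Fin 8) :
    ∃ x, x ∈ body δ.y ∧ δ.y i x = 0 ∧ ∀ j, j ≠ i → 0 < δ.y j x := by
  obtain ⟨h1, h2⟩ := G.fv i
  set v := facetVec δ.X i with hv
  have hvi : v i = 0 := by rw [hv]; simp [facetVec]
  have hS : 0 < ∑ j, v j := by
    obtain ⟨j, hj⟩ : ∃ j, j ≠ i := exists_ne i
    apply Finset.sum_pos' (fun l _ => ?_) ⟨j, Finset.mem_univ _, h1 j hj⟩
    by_cases hl : l = i
    · rw [hl, hvi]
    · exact (h1 l hl).le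
  have hSR : (0 : ℝ) < ((∑ j, v j : ℤ) : ℝ) := by exact_mod_cast hS
  obtain ⟨x, hx⟩ := (sys G).surj (fun j => (v j : ℝ) / ((∑ j, v j : ℤ) : ℝ)) (by
    rw [← Finset.sum_div, div_eq_one_iff_eq hSR.ne']; push_cast; rfl) (by
    have : ∀ j, δ.XR j * ((v j : ℝ) / ((∑ j, v j : ℤ) : ℝ)) =
        ((δ.X j : ℝ) * v j) / ((∑ j, v j : ℤ) : ℝ) := fun j => by unfold XR; ring
    simp only [this]
    rw [← Finset.sum_div]
    have h3 : ∑ j, (δ.X j : ℝ) * v j = ((∑ j, δ.X j * v j : ℤ) : ℝ) := by push_cast; rfl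
    rw [h3, h2]; simp)
  have hpos : ∀ j, j ≠ i → 0 < δ.y j x := by
    intro j hj
    rw [hx j]
    exact div_pos (by exact_mod_cast h1 j hj) hSR
  have h0 : δ.y i x = 0 := by rw [hx i, hvi]; simp
  refine ⟨x, fun j => ?_, h0, hpos⟩
  by_cases hj : j = i
  · rw [hj, h0]
  · exact (hpos j hj).le

lemma interior_point : ∃ x, ∀ j, 0 < δ.y j x := by
  obtain ⟨p, hp, -, hp1⟩ := facet_point G 0
  obtain ⟨q, hq, -, hq1⟩ := facet_point G 1
  refine ⟨(1 / 2 : ℝ) • p + (1 / 2 : ℝ) • q, fun j => ?_⟩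
  rw [comb_apply _ (by norm_num)]
  by_cases hj : j = 0
  · have h1 := hp j
    have h2 := hq1 j (by rw [hj]; decide)
    linarith
  · have h1 := hp1 j hj
    have h2 := hq j
    linarith

theorem simplePolytope : IsSimplePolytope δ.y where
  bounded := body_bounded G
  solid := by
    obtain ⟨x, hx⟩ := interior_point G
    refine ⟨x, mem_interior.2 ⟨{x | ∀ j, 0 < δ.y j x}, fun z hz j => (hz j).le, ?_, hx⟩⟩
    have : {x | ∀ j, 0 < δ.y j x} = ⋂ j, (δ.y j) ⁻¹' (Set.Ioi 0) := by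
      ext z; simp
    rw [this]
    apply isOpen_iInter_of_finite
    intro j
    exact isOpen_Ioi.preimage (AffineMap.continuous_of_finiteDimensional _)
  facet i := by
    obtain ⟨x, hx, h0, hj⟩ := facet_point G i
    refine ⟨fun hlin => ?_, x, hx, h0, hj⟩
    obtain ⟨p, hp⟩ := interior_point G
    have h1 := apply_eq (δ.y i) p x
    rw [hlin, h0] at h1
    have h2 := hp i
    rw [h1] at h2
    simp at h2
  simple v hv := by
    obtain ⟨a, b, h⟩ := (sys G).isV_of_extreme hv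
    have : (Finset.univ.filter fun i => δ.y i v = 0) = Finset.univ \ {a, b} := by
      ext i
      simp only [Finset.mem_filter, Finset.mem_univ, true_and, Finset.mem_sdiff,
        Finset.mem_insert, Finset.mem_singleton, not_or]
      constructor
      · intro h0
        refine ⟨fun e => ?_, fun e => ?_⟩
        · have := h.ya_pos; rw [← e, h0] at this; exact lt_irrefl _ this
        · have := h.yb_pos; rw [← e, h0] at this; exact lt_irrefl _ this
      · rintro ⟨h1, h2⟩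
        exact h.y0 i h1 h2
    rw [this, Finset.card_sdiff_of_subset (Finset.subset_univ _), Finset.card_pair h.ne]
    simp

/-- Integer determinant. -/
def det3Z (X h : Fin 8 → ℤ) (a b k : Fin 8) : ℤ :=
  (X b - X a) * h k - (X b - X k) * h a - (X k - X a) * h b

omit G in
lemma det3_cast (h : Fin 8 → ℤ) (a b k : Fin 8) :
    det3 δ.XR (fun i => (h i : ℝ)) a b k = (det3Z δ.X h a b k : ℝ) := by
  unfold det3 det3Z XR; push_cast; ring

/-- Squared length of the edge direction. -/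
def nrm (δ : Data) (a b k : Fin 8) : ℤ := ∑ m, det3Z δ.X (δ.P m) a b k ^ 2

/-- The slope along an edge. -/
lemma slope {x w : E 6} {a b k : Fin 8} {s : ℝ} (hs : 0 < s) (hab : a ≠ b) (hak : a ≠ k)
    (hbk : b ≠ k) (hd : ∀ i, δ.y i w - δ.y i x = s * dirv δ.XR a b k i) (m : Fin 6) :
    (w m - x m) / ‖w - x‖ =
      (det3Z δ.X (δ.P m) a b k : ℝ) / √(nrm δ a b k : ℝ) := by
  have hc : ∀ m, w m - x m = s * det3Z δ.X (δ.P m) a b k := by
    intro m
    rw [← coord G m w, ← coord G m x, ← Finset.sum_sub_distrib]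
    have : ∀ i, (δ.P m i : ℝ) * δ.y i w - (δ.P m i : ℝ) * δ.y i x =
        s * ((δ.P m i : ℝ) * dirv δ.XR a b k i) := by
      intro i; rw [← mul_sub, hd]; ring
    simp only [this]
    rw [← Finset.mul_sum, dirv_lin δ.XR (fun i => (δ.P m i : ℝ)) hab hak hbk, det3_cast]
  have hn : ‖w - x‖ = s * √(nrm δ a b k : ℝ) := by
    rw [EuclideanSpace.norm_eq]
    have h1 : ∑ i, ‖(w - x) i‖ ^ 2 = s ^ 2 * (nrm δ a b k : ℝ) := by
      unfold nrm
      push_cast
      rw [Finset.mul_sum]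
      apply Finset.sum_congr rfl
      intro i _
      rw [PiLp.sub_apply, hc i, Real.norm_eq_abs, sq_abs]
      ring
    rw [h1, Real.sqrt_mul (sq_nonneg s), Real.sqrt_sq hs.le]
  rw [hc m, hn, mul_div_mul_left _ _ hs.ne']

omit G in
/-- Comparison of slopes. -/
lemma slope_le {f g M N : ℤ} (hN : 0 < N) (hM : 0 < M) (hf : 0 < f)
    (h : g ≤ 0 ∨ g ^ 2 * M ≤ f ^ 2 * N) : (g : ℝ) / √(N : ℝ) ≤ (f : ℝ) / √(M : ℝ) := by
  have hN' : (0 : ℝ) < √(N : ℝ) := Real.sqrt_pos.2 (by exact_mod_cast hN)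
  have hM' : (0 : ℝ) < √(M : ℝ) := Real.sqrt_pos.2 (by exact_mod_cast hM)
  have hf' : (0 : ℝ) < f := by exact_mod_cast hf
  rw [div_le_div_iff₀ hN' hM']
  rcases le_or_gt g 0 with hg | hg
  · have hg' : (g : ℝ) ≤ 0 := by exact_mod_cast hg
    have h1 : (g : ℝ) * √(M : ℝ) ≤ 0 := mul_nonpos_of_nonpos_of_nonneg hg' hM'.le
    have h2 : 0 < (f : ℝ) * √(N : ℝ) := mul_pos hf' hN'
    linarith
  · rcases h with h | h
    · omega
    · have h' : (g : ℝ) ^ 2 * M ≤ (f : ℝ) ^ 2 * N := by exact_mod_cast h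
      have hg' : (0 : ℝ) < g := by exact_mod_cast hg
      rw [← pow_le_pow_iff_left₀ (mul_pos hg' hM').le (mul_pos hf' hN').le two_ne_zero]
      rw [mul_pow, mul_pow, Real.sq_sqrt (by exact_mod_cast hM.le),
        Real.sq_sqrt (by exact_mod_cast hN.le)]
      exact h'
  
end Data

end Pool.Agent.Lib.MP_dd1a29_co
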