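import Pool.Agent.Lib.MP_dd1a29_co.Defs
import Pool.Agent.Lib.MP_dd1a29_co.Codim2

/-!
Every simple `d`-polytope with `d + 2` facets has a codimension two coordinate system.
-/

namespace Pool.Agent.Lib.MP_dd1a29_co

open Finset Module

variable {d n : ℕ} {φ : Fin n → (E d →ᵃ[ℝ] ℝ)}

lemma apply_add (f : E d →ᵃ[ℝ] ℝ) (x v : E d) : f (x + v) = f x + f.linear v := by
  have := f.map_vadd x v
  simp only [vadd_eq_add] at this
  rw [add_comm, this, add_comm]

lemma apply_eq (f : E d →ᵃ[ℝ] ℝ) (x x0 : E d) : f x = f x0 + f.linear (x - x0) := by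
  rw [← apply_add]; congr 1; abel

/-- The recession cone of a polytope is trivial. -/
lemma recession (h : IsSimplePolytope φ) (v : E d) (hv : ∀ i, 0 ≤ (φ i).linear v) : v = 0 := by
  by_contra hne
  obtain ⟨x0, hx0⟩ := h.solid
  have hx0 : x0 ∈ body φ := interior_subset hx0
  obtain ⟨R, hR⟩ := h.bounded.exists_norm_le
  have hvpos : 0 < ‖v‖ := norm_pos_iff.2 hne
  set t := (R + ‖x0‖ + 1) / ‖v‖ with ht
  have hR0 : 0 ≤ R := (norm_nonneg x0).trans (hR x0 hx0)
  have htpos : 0 ≤ t := div_nonneg (by have := norm_nonneg x0; linarith) hvpos.le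
  have hmem : x0 + t • v ∈ body φ := by
    intro i
    rw [apply_add, map_smul, smul_eq_mul]
    have := hx0 i
    have := mul_nonneg htpos (hv i)
    linarith
  have h1 := hR _ hmem
  have h2 : ‖t • v‖ = R + ‖x0‖ + 1 := by
    rw [norm_smul, Real.norm_of_nonneg htpos, ht]
    field_simp
  have h3 : ‖t • v‖ ≤ ‖x0 + t • v‖ + ‖x0‖ := by
    have : t • v = (x0 + t • v) - x0 := by abel
    calc ‖t • v‖ = ‖(x0 + t • v) - x0‖ := by rw [← this]
      _ ≤ _ := norm_sub_le _ _
  linarith

/-- The linear parts as a map to `Fin n → ℝ`. -/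
noncomputable def linmap (φ : Fin n → (E d →ᵃ[ℝ] ℝ)) : E d →ₗ[ℝ] (Fin n → ℝ) :=
  LinearMap.pi fun i => (φ i).linear

lemma linmap_apply (v : E d) (i : Fin n) : linmap φ v i = (φ i).linear v := rfl

/-- Positive relation between the linear parts (Stiemke). -/
lemma exists_pos_rel (h : IsSimplePolytope φ) :
    ∃ c : Fin n → ℝ, (∀ i, 0 < c i) ∧ ∀ v, ∑ i, c i * (φ i).linear v = 0 := by
  have hdisj : Disjoint (stdSimplex ℝ (Fin n)) ((LinearMap.range (linmap φ) : Submodule ℝ
      (Fin n → ℝ)) : Set (Fin n → ℝ)) := by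
    rw [Set.disjoint_left]
    rintro z ⟨hz0, hz1⟩ ⟨v, rfl⟩
    have hv : v = 0 := recession h v hz0
    rw [hv, map_zero] at hz1
    simp at hz1
  obtain ⟨f, u, w, hu, huw, hw⟩ := geometric_hahn_banach_compact_closed
    (convex_stdSimplex ℝ (Fin n)) (isCompact_stdSimplex ℝ (Fin n))
    (LinearMap.range (linmap φ)).convex (Submodule.closed_of_finiteDimensional _) hdisj
  have hzero : ∀ v, f (linmap φ v) = 0 := by
    intro v
    by_contra hne
    have := hw (linmap φ (((w - 1) / f (linmap φ v)) • v)) ⟨_, rfl⟩
    rw [map_smul, map_smul, smul_eq_mul, div_mul_cancel₀ _ hne] at this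
    linarith
  have hw0 : w < 0 := by
    have := hw 0 (Submodule.zero_mem _)
    simpa using this
  refine ⟨fun i => - f (Pi.single i 1), fun i => ?_, fun v => ?_⟩
  · have := hu (Pi.single i 1) (single_mem_stdSimplex ℝ i)
    linarith
  · have h1 := hzero v
    have h2 : linmap φ v = ∑ i, ((φ i).linear v) • (Pi.single i 1 : Fin n → ℝ) := by
      funext j
      simp [linmap_apply, Pi.single_apply]
    rw [h2, map_sum] at h1
    simp only [map_smul, smul_eq_mul] at h1
    rw [← neg_eq_zero, ← Finset.sum_neg_distrib]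
    rw [← h1]
    apply Finset.sum_congr rfl
    intro i _
    ring

/-- A relation with constant term one. -/
lemma exists_one_rel (h : IsSimplePolytope φ) (hn : 2 ≤ n) :
    ∃ c : Fin n → ℝ, (∀ i, 0 < c i) ∧ ∀ x, ∑ i, c i * φ i x = 1 := by
  obtain ⟨c, hc, hrel⟩ := exists_pos_rel h
  obtain ⟨-, x0, hx0, -, hj⟩ := h.facet ⟨0, by omega⟩
  have hconst : ∀ x, ∑ i, c i * φ i x = ∑ i, c i * φ i x0 := by
    intro x
    have : ∀ i, c i * φ i x = c i * φ i x0 + c i * (φ i).linear (x - x0) := fun i => by
      rw [apply_eq (φ i) x x0]; ring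
    simp only [this]
    rw [Finset.sum_add_distrib, hrel, add_zero]
  have hpos : 0 < ∑ i, c i * φ i x0 := by
    apply Finset.sum_pos' (fun i _ => mul_nonneg (hc i).le (hx0 i))
    refine ⟨⟨1, by omega⟩, Finset.mem_univ _, mul_pos (hc _) (hj _ ?_)⟩
    intro e
    have := congrArg Fin.val e
    simp at this
  refine ⟨fun i => c i / ∑ i, c i * φ i x0, fun i => div_pos (hc i) hpos, fun x => ?_⟩
  have : ∀ i, c i / (∑ i, c i * φ i x0) * φ i x = (c i * φ i x) / ∑ i, c i * φ i x0 :=
    fun i => by ring
  simp only [this]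
  rw [← Finset.sum_div, hconst, div_self hpos.ne']

/-- A second relation, not a multiple of a given one. -/
lemma exists_second (hn : d + 2 ≤ n) (φ : Fin n → (E d →ᵃ[ℝ] ℝ)) (c : Fin n → ℝ) :
    ∃ w : Fin n → ℝ, (∀ v, ∑ i, w i * (φ i).linear v = 0) ∧ ∀ t : ℝ, w ≠ t • c := by
  let Λ : (Fin n → ℝ) →ₗ[ℝ] (E d →ₗ[ℝ] ℝ) :=
    Fintype.linearCombination ℝ (fun i => (φ i).linear)
  have h1 : finrank ℝ (LinearMap.range Λ) + finrank ℝ (LinearMap.ker Λ) = n := by
    rw [LinearMap.finrank_range_add_finrank_ker]; simp
  have h2 : finrank ℝ (LinearMap.range Λ) ≤ d := by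
    calc _ ≤ finrank ℝ (E d →ₗ[ℝ] ℝ) := Submodule.finrank_le _
      _ = d := by
        have := Subspace.dual_finrank_eq (K := ℝ) (V := E d)
        rw [show finrank ℝ (E d →ₗ[ℝ] ℝ) = finrank ℝ (Module.Dual ℝ (E d)) from rfl, this]
        simp
  have h3 : ¬ (LinearMap.ker Λ ≤ Submodule.span ℝ {c}) := by
    intro hle
    have := Submodule.finrank_mono hle
    have h4 : finrank ℝ (Submodule.span ℝ {c}) ≤ 1 := by
      have := finrank_span_le_card (R := ℝ) ({c} : Set (Fin n → ℝ))
      simpa using this
    omega
  obtain ⟨w, hw, hwc⟩ := Set.not_subset.1 h3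
  refine ⟨w, fun v => ?_, fun t ht => hwc ?_⟩
  · have : Λ w = 0 := hw
    have h5 : Λ w v = 0 := by rw [this]; rfl
    simpa [Λ, Fintype.linearCombination_apply, LinearMap.sum_apply] using h5
  · rw [ht]
    exact Submodule.smul_mem _ _ (Submodule.mem_span_singleton_self c)

/-- The codimension two coordinate system of a simple `d`-polytope with `d + 2` facets. -/
theorem exists_sys (h : IsSimplePolytope φ) (hn : n = d + 2) :
    ∃ c X : Fin n → ℝ, (∀ i, 0 < c i) ∧ Sys (fun i => c i • φ i) X := by
  obtain ⟨c, hc, hone⟩ := exists_one_rel h (by omega)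
  obtain ⟨w, hw, hwc⟩ := exists_second (by omega) φ c
  obtain ⟨x0, hx0⟩ := h.solid
  have hx0 : x0 ∈ body φ := interior_subset hx0
  have hclin : ∀ v, ∑ i, c i * (φ i).linear v = 0 := by
    intro v
    have h1 := hone (x0 + v)
    simp only [apply_add, mul_add] at h1
    rw [Finset.sum_add_distrib, hone] at h1
    linarith
  set s := ∑ i, w i * φ i x0 with hs
  set X : Fin n → ℝ := fun i => w i / c i - s with hX
  have hXc : ∀ i, X i * c i = w i - s * c i := by
    intro i
    have := (hc i).ne'
    rw [hX]; simp only; field_simp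
  have hsumX : ∀ x, ∑ i, X i * (c i * φ i x) = 0 := by
    intro x
    have h1 : ∀ i, X i * (c i * φ i x) =
        w i * φ i x0 + w i * (φ i).linear (x - x0) - s * (c i * φ i x) := by
      intro i
      rw [← mul_assoc, hXc, apply_eq (φ i) x x0]; ring
    simp only [h1]
    rw [Finset.sum_sub_distrib, Finset.sum_add_distrib, hw, ← Finset.mul_sum, hone, ← hs]
    ring
  have hinj0 : ∀ v, (∀ i, (φ i).linear v = 0) → v = 0 := fun v hv =>
    recession h v fun i => (hv i).ge
  have hinj : ∀ x x', (∀ i, (c i • φ i) x = (c i • φ i) x') → x = x' := by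
    intro x x' hxx
    have : x - x' = 0 := by
      apply hinj0
      intro i
      have h1 := hxx i
      simp only [AffineMap.coe_smul, Pi.smul_apply, smul_eq_mul] at h1
      have h2 := mul_left_cancel₀ (hc i).ne' h1
      rw [apply_eq (φ i) x x'] at h2
      linarith
    exact sub_eq_zero.1 this
  -- X is not constant
  have hXnc : ∃ i j, X i ≠ X j := by
    by_contra hcon
    push Not at hcon
    apply hwc (X ⟨0, by omega⟩ + s)
    funext i
    have := hXc i
    rw [hcon i ⟨0, by omega⟩] at this
    simp only [Pi.smul_apply, smul_eq_mul]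
    linarith
  have hsurj : ∀ z : Fin n → ℝ, ∑ i, z i = 1 → ∑ i, X i * z i = 0 →
      ∃ x, ∀ i, (c i • φ i) x = z i := by
    let L : E d →ₗ[ℝ] (Fin n → ℝ) := LinearMap.pi fun i => c i • (φ i).linear
    have hL : ∀ v i, L v i = c i * (φ i).linear v := fun v i => rfl
    let D1 : (Fin n → ℝ) →ₗ[ℝ] ℝ := ∑ i, LinearMap.proj i
    let D2 : (Fin n → ℝ) →ₗ[ℝ] ℝ := ∑ i, X i • LinearMap.proj i
    have hD1 : ∀ z, D1 z = ∑ i, z i := fun z => by simp [D1, LinearMap.sum_apply]
    have hD2 : ∀ z, D2 z = ∑ i, X i * z i := fun z => by simp [D2, LinearMap.sum_apply]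
    let D : (Fin n → ℝ) →ₗ[ℝ] ℝ × ℝ := D1.prod D2
    have hDsurj : LinearMap.range D = ⊤ := by
      obtain ⟨i, j, hij⟩ := hXnc
      have hij' : i ≠ j := fun e => hij (by rw [e])
      rw [LinearMap.range_eq_top]
      rintro ⟨p, q⟩
      have hne : X i - X j ≠ 0 := sub_ne_zero.2 hij
      refine ⟨fun l => if l = i then (q - p * X j) / (X i - X j) else
        if l = j then (p * X i - q) / (X i - X j) else 0, ?_⟩
      have e1 : D1 (fun l => if l = i then (q - p * X j) / (X i - X j) else
          if l = j then (p * X i - q) / (X i - X j) else 0) = p := by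
        rw [hD1, sum_eq_two hij' (fun l l1 l2 => by simp [l1, l2])]
        simp only [if_true, hij'.symm, if_false]
        field_simp
        ring
      have e2 : D2 (fun l => if l = i then (q - p * X j) / (X i - X j) else
          if l = j then (p * X i - q) / (X i - X j) else 0) = q := by
        rw [hD2, sum_eq_two hij' (fun l l1 l2 => by simp [l1, l2])]
        simp only [if_true, hij'.symm, if_false]
        field_simp
        ring
      exact Prod.ext e1 e2
    have hker : finrank ℝ (LinearMap.ker D) = d := by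
      have h1 := LinearMap.finrank_range_add_finrank_ker D
      rw [hDsurj] at h1
      simp at h1
      omega
    have hLinj : LinearMap.ker L = ⊥ := by
      rw [LinearMap.ker_eq_bot']
      intro v hv
      apply hinj0
      intro i
      have h1 : L v i = 0 := by rw [hv]; rfl
      rw [hL] at h1
      rcases mul_eq_zero.1 h1 with h2 | h2
      · exact absurd h2 (hc i).ne'
      · exact h2
    have hLr : finrank ℝ (LinearMap.range L) = d := by
      have h1 := LinearMap.finrank_range_add_finrank_ker L
      rw [hLinj] at h1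
      simpa using h1
    have hle : LinearMap.range L ≤ LinearMap.ker D := by
      rintro z ⟨v, rfl⟩
      rw [LinearMap.mem_ker]
      apply Prod.ext
      · change D1 (L v) = 0
        rw [hD1]
        exact hclin v
      · change D2 (L v) = 0
        rw [hD2]
        simp only [hL]
        have h1 := hsumX (x0 + v)
        simp only [apply_add, mul_add] at h1
        rw [Finset.sum_add_distrib, hsumX, zero_add] at h1
        exact h1
    have heq : LinearMap.range L = LinearMap.ker D :=
      Submodule.eq_of_le_of_finrank_eq hle (by rw [hLr, hker])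
    intro z hz1 hz2
    have hmem : (fun i => z i - c i * φ i x0) ∈ LinearMap.ker D := by
      rw [LinearMap.mem_ker]
      apply Prod.ext
      · change D1 _ = 0
        rw [hD1, Finset.sum_sub_distrib, hz1, hone, sub_self]
      · change D2 _ = 0
        rw [hD2]
        simp only [mul_sub]
        rw [Finset.sum_sub_distrib, hz2, hsumX, sub_self]
    rw [← heq] at hmem
    obtain ⟨v, hv⟩ := hmem
    refine ⟨x0 + v, fun i => ?_⟩
    have h1 := congrFun hv i
    rw [hL] at h1
    have h2 : (c i • φ i) (x0 + v) = c i * (φ i x0 + (φ i).linear v) := by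
      rw [← apply_add]; rfl
    rw [h2, mul_add, h1]; ring
  refine ⟨c, X, hc, ?_, ?_, hinj, hsurj, ?_⟩
  · intro x
    simpa [AffineMap.coe_smul, smul_eq_mul] using hone x
  · intro x
    simpa [AffineMap.coe_smul, smul_eq_mul] using hsumX x
  · intro i hXi
    obtain ⟨x, hx⟩ := hsurj (fun j => if j = i then 1 else 0) (by simp) (by simp [hXi])
    have hx' : ∀ j, c j * φ j x = if j = i then 1 else 0 := hx
    have hφ0 : ∀ j, j ≠ i → φ j x = 0 := by
      intro j hj
      have := hx' j
      rw [if_neg hj] at this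
      rcases mul_eq_zero.1 this with h1 | h1
      · exact absurd h1 (hc j).ne'
      · exact h1
    have hφi : 0 < φ i x := by
      have := hx' i
      rw [if_pos rfl] at this
      have h2 : 0 < c i * φ i x := by rw [this]; norm_num
      exact (mul_pos_iff_of_pos_left (hc i)).1 h2
    have hxP : x ∈ body φ := by
      intro j
      by_cases hj : j = i
      · rw [hj]; exact hφi.le
      · exact (hφ0 j hj).ge
    have hext : x ∈ (body φ).extremePoints ℝ := by
      rw [mem_extremePoints]
      refine ⟨hxP, ?_⟩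
      have key : ∀ p ∈ body φ, ∀ q ∈ body φ, x ∈ openSegment ℝ p q → p = x := by
        rintro p hp q hq ⟨a, b, ha, hb, hab, hxe⟩
        have h0 : ∀ j, j ≠ i → φ j p = 0 := by
          intro j hj
          have h1 := hφ0 j hj
          rw [← hxe, comb_apply _ hab] at h1
          have h2 := mul_nonneg ha.le (hp j)
          have h3 := mul_nonneg hb.le (hq j)
          have h4 : a * φ j p = 0 := by linarith
          rcases mul_eq_zero.1 h4 with h5 | h5
          · linarith
          · exact h5
        apply hinj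
        intro j
        by_cases hj : j = i
        · rw [hx j, if_pos hj]
          have h1 := hone p
          rw [Finset.sum_eq_single i] at h1
          · rw [hj]; exact h1
          · intro l _ hl; rw [h0 l hl, mul_zero]
          · intro hi; exact absurd (Finset.mem_univ i) hi
        · rw [hx j, if_neg hj]
          simp only [AffineMap.coe_smul, Pi.smul_apply, smul_eq_mul]
          rw [h0 j hj, mul_zero]
      intro p hp q hq hxe
      exact ⟨key p hp q hq hxe, key q hq p hp (by rwa [openSegment_symm])⟩
    have hcard := h.simple x hext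
    have : (Finset.univ.filter fun j => φ j x = 0) = Finset.univ.erase i := by
      ext j
      simp only [Finset.mem_filter, Finset.mem_univ, true_and, Finset.mem_erase, ne_eq, and_true]
      constructor
      · intro hj e; rw [e] at hj; linarith
      · intro hj; exact hφ0 j hj
    rw [this, Finset.card_erase_of_mem (Finset.mem_univ i)] at hcard
    simp at hcard
    omega

end Pool.Agent.Lib.MP_dd1a29_co
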