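import Pool.Agent.Lib.MP_dd1a29_co.SteepExample

/-!
A simple 6-polytope with 8 facets that has a simplex (Dantzig) path of length 14.
-/

namespace Pool.Agent.Lib.MP_dd1a29_co

open Finset Module

lemma body_smul {d n : ℕ} {φ : Fin n → (E d →ᵃ[ℝ] ℝ)} {γ : Fin n → ℝ} (hγ : ∀ i, 0 < γ i) :
    body (fun i => γ i • φ i) = body φ := by
  ext x
  simp only [body, Set.mem_ofPred_eq, AffineMap.coe_smul, Pi.smul_apply, smul_eq_mul]
  exact forall_congr' fun i => mul_nonneg_iff_of_pos_left (hγ i)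

lemma IsSimplePolytope.smul {d n : ℕ} {φ : Fin n → (E d →ᵃ[ℝ] ℝ)} {γ : Fin n → ℝ}
    (hγ : ∀ i, 0 < γ i) (h : IsSimplePolytope φ) :
    IsSimplePolytope (fun i => γ i • φ i) where
  bounded := by rw [body_smul hγ]; exact h.bounded
  solid := by rw [body_smul hγ]; exact h.solid
  facet i := by
    obtain ⟨h1, x, hx, h2, h3⟩ := h.facet i
    rw [body_smul hγ]
    refine ⟨?_, x, hx, ?_, fun j hj => ?_⟩
    · intro e
      apply h1
      have e' : γ i • (φ i).linear = 0 := e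
      exact (smul_eq_zero.1 e').resolve_left (hγ i).ne'
    · change γ i * φ i x = 0
      rw [h2, mul_zero]
    · change 0 < γ j * φ j x
      exact mul_pos (hγ j) (h3 j hj)
  simple v hv := by
    rw [body_smul hγ] at hv
    refine Eq.trans (congrArg Finset.card ?_) (h.simple v hv)
    ext i
    simp only [Finset.mem_filter, Finset.mem_univ, true_and]
    change γ i * φ i v = 0 ↔ φ i v = 0
    rw [mul_eq_zero]
    exact ⟨fun h => h.resolve_left (hγ i).ne', Or.inr⟩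

namespace Data

variable {δ : Data}

/-- Conditions for a simplex path with respect to the functions `y i / c i`. -/
def SimplexOK (δ : Data) (c : Fin 8 → ℤ) (k : ℕ) (a b : ℕ → Fin 8) : Prop :=
  PathOK δ k a b ∧ (∀ i, 0 < c i) ∧
  (∀ t : Fin k, ∀ j : Fin 8, a t ≠ j → b t ≠ j →
    c j * det3Z δ.X (δ.P 5) (a t) (b t) j ≤
      c (entering a b t) * det3Z δ.X (δ.P 5) (a t) (b t) (entering a b t))

/-- The scaled family. -/
noncomputable def fam (δ : Data) (c : Fin 8 → ℤ) (i : Fin 8) : E 6 →ᵃ[ℝ] ℝ :=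
  (1 / (c i : ℝ)) • δ.y i

lemma fam_apply (c : Fin 8 → ℤ) (i : Fin 8) (x : E 6) :
    fam δ c i x = 1 / (c i : ℝ) * δ.y i x := rfl

lemma grad (G : δ.Good) {c : Fin 8 → ℤ} (hc : ∀ i, 0 < c i) {x w : E 6} {a b j : Fin 8}
    (hx : IsV δ.y δ.XR x a b) (m1 : a ≠ j) (m2 : b ≠ j) (hp : 0 < δ.y j w)
    (hd : ∀ i, δ.y i w - δ.y i x = δ.y j w / (δ.XR b - δ.XR a) * dirv δ.XR a b j i) :
    (coordForm 5 w - coordForm 5 x) / fam δ c j w =
      ((c j * det3Z δ.X (δ.P 5) a b j : ℤ) : ℝ) / (δ.XR b - δ.XR a) := by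
  have hsl := lin_diff (h := fun i => (δ.P 5 i : ℝ)) (ℓ := coordForm 5)
    (fun x => (coord G 5 x).symm) hx.ne m1 m2 hd
  rw [hsl, det3_cast, fam_apply]
  have h1 : (c j : ℝ) ≠ 0 := by exact_mod_cast (hc j).ne'
  have h2 := hp.ne'
  push_cast
  field_simp

theorem exists_simplex (G : δ.Good) (c : Fin 8 → ℤ) (k : ℕ) (a b : ℕ → Fin 8)
    (h : SimplexOK δ c k a b) : ∃ x, IsSimplexPath (fam δ c) (coordForm 5) k x := by
  obtain ⟨h12, hc, h3⟩ := h
  have hγ : ∀ i, (0 : ℝ) < 1 / (c i : ℝ) := fun i => by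
    have : (0 : ℝ) < c i := by exact_mod_cast hc i
    positivity
  have hbody : body (fam δ c) = body δ.y := body_smul hγ
  obtain ⟨x, hx, hstep⟩ := exists_path G k a b h12
  refine ⟨x, by rw [hbody]; exact (sys G).extreme_of_isV (hx 0 (by omega)), fun t ht => ?_⟩
  rw [hbody]
  obtain ⟨hadj, hlt, n1, n2, hp, hd⟩ := hstep t ht
  have hv := hx t (by omega)
  refine ⟨hadj, hlt, ?_⟩
  intro w hw f g hf0 hfw hg0 hgw
  obtain ⟨j, m1, m2, hp', hd'⟩ := nbr_data G hv hw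
  have h0 : ∀ i (z : E 6), fam δ c i z = 0 → δ.y i z = 0 := by
    intro i z hz
    rw [fam_apply] at hz
    exact (mul_eq_zero.1 hz).resolve_left (hγ i).ne'
  have hpos : ∀ i (z : E 6), 0 < fam δ c i z → 0 < δ.y i z := by
    intro i z hz
    rw [fam_apply] at hz
    exact (mul_pos_iff_of_pos_left (hγ i)).1 hz
  have huniq : ∀ (f j : Fin 8) (z : E 6), δ.y f (x t) = 0 → 0 < δ.y f z →
      (∀ i, δ.y i z - δ.y i (x t) = δ.y j z / (δ.XR (b t) - δ.XR (a t)) *
        dirv δ.XR (a t) (b t) j i) → f = j := by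
    intro f j z hf hz hd
    have fa : f ≠ a t := fun e => by have := hv.ya_pos; rw [← e, hf] at this; exact lt_irrefl _ this
    have fb : f ≠ b t := fun e => by have := hv.yb_pos; rw [← e, hf] at this; exact lt_irrefl _ this
    by_contra hne
    have := hd f
    rw [dirv_0 δ.XR fa fb hne, hf] at this
    linarith
  have ef : f = j := huniq f j w (h0 _ _ hf0) (hpos _ _ hfw) hd'
  have eg : g = entering a b t := huniq g _ _ (h0 _ _ hg0) (hpos _ _ hgw) hd
  subst ef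
  subst eg
  rw [grad G hc hv m1 m2 hp' hd', grad G hc hv n1 n2 hp hd,
    div_le_div_iff_of_pos_right (sub_pos.2 hv.lt)]
  exact_mod_cast h3 ⟨t, ht⟩ f m1 m2

end Data

/-- The example. -/
def simplexData : Data where
  X := ![-1, -1, -55, -12, 49, 7, 1, 1]
  P := ![![0, 0, 1, 0, 0, 0, 0, 0], ![0, 0, 0, 1, 0, 0, 0, 0], ![0, 0, 0, 0, 1, 0, 0, 0],
    ![0, 0, 0, 0, 0, 1, 0, 0], ![0, 0, 0, 0, 0, 0, 0, 1], ![3, 1, -2, -1, 0, 0, 4, 2]]
  B0 := ![-5, 7, 0, 0, 0, 0, 2, 0]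
  B1 := ![-3, 1, 0, 0, 0, 0, 2, 0]
  B := ![![-156, -29, 152, 26, 4, 2], ![44, 3, -56, -14, -4, -2], ![4, 0, 0, 0, 0, 0],
    ![0, 4, 0, 0, 0, 0], ![0, 0, 4, 0, 0, 0], ![0, 0, 0, 4, 0, 0],
    ![108, 22, -100, -16, -4, 0], ![0, 0, 0, 0, 4, 0]]
  D := 4

/-- Scaling factors. -/
def simplexC : Fin 8 → ℤ := ![2, 7, 8, 121, 1, 23, 1, 4]

/-- Index functions of the simplex path. -/
def simplexA (t : ℕ) : Fin 8 := [2, 3, 3, 2, 1, 1, 1, 3, 2, 0, 0, 0, 0, 3, 2].getD t 0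

/-- Index functions of the simplex path. -/
def simplexB (t : ℕ) : Fin 8 := [4, 4, 5, 5, 5, 4, 7, 7, 7, 7, 5, 4, 6, 6, 6].getD t 0

theorem simplexData_good : simplexData.Good where
  D0 := by decide +kernel
  X0 := by decide +kernel
  s0 := by decide +kernel
  s1 := by decide +kernel
  x0 := by decide +kernel
  x1 := by decide +kernel
  p0 := by decide +kernel
  p1 := by decide +kernel
  inv := by decide +kernel
  fv := by decide +kernel

theorem simplexData_ok : Data.SimplexOK simplexData simplexC 14 simplexA simplexB := by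
  unfold Data.SimplexOK Data.PathOK
  decide +kernel

end Pool.Agent.Lib.MP_dd1a29_co
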