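import Pool.Agent.Lib.MP_dd1a29_co.Explicit

/-!
A simple 6-polytope with 8 facets that has a steep path through all its sixteen vertices.
-/

namespace Pool.Agent.Lib.MP_dd1a29_co

open Finset Module

namespace Data

variable {δ : Data}

/-- The coordinate form. -/
noncomputable def coordForm (m : Fin 6) : E 6 →ₗ[ℝ] ℝ where
  toFun x := x m
  map_add' _ _ := rfl
  map_smul' _ _ := rfl

/-- Entering index. -/
def entering (a b : ℕ → Fin 8) (t : ℕ) : Fin 8 :=
  if a t = a (t + 1) then b (t + 1) else a (t + 1)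

/-- Index conditions for a path. -/
def PathOK (δ : Data) (k : ℕ) (a b : ℕ → Fin 8) : Prop :=
  (∀ t : Fin (k + 1), δ.X (a t) < 0 ∧ 0 < δ.X (b t)) ∧
  (∀ t : Fin k, ((a t = a (t + 1) ∧ b t ≠ b (t + 1)) ∨ (a t ≠ a (t + 1) ∧ b t = b (t + 1))) ∧
    0 < det3Z δ.X (δ.P 5) (a t) (b t) (entering a b t))

/-- Combinatorial and integer conditions for a steep path with index functions `a`, `b`. -/
def SteepOK (δ : Data) (k : ℕ) (a b : ℕ → Fin 8) : Prop :=
  PathOK δ k a b ∧
  (∀ t : Fin k, ∀ j : Fin 8, a t ≠ j → b t ≠ j → 0 < nrm δ (a t) (b t) j ∧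
    (det3Z δ.X (δ.P 5) (a t) (b t) j ≤ 0 ∨
      det3Z δ.X (δ.P 5) (a t) (b t) j ^ 2 * nrm δ (a t) (b t) (entering a b t) ≤
      det3Z δ.X (δ.P 5) (a t) (b t) (entering a b t) ^ 2 * nrm δ (a t) (b t) j))

/-- The data of a neighbour. -/
lemma nbr_data (G : δ.Good) {x w : E 6} {a b : Fin 8} (hx : IsV δ.y δ.XR x a b)
    (h : Adj (body δ.y) x w) : ∃ j : Fin 8, a ≠ j ∧ b ≠ j ∧ 0 < δ.y j w ∧
      ∀ i, δ.y i w - δ.y i x = δ.y j w / (δ.XR b - δ.XR a) * dirv δ.XR a b j i := by
  obtain ⟨-, hw, hne, hseg⟩ := h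
  obtain ⟨a', b', hw⟩ := (sys G).isV_of_extreme hw
  by_cases e1 : a = a'
  · subst e1
    have e2 : b ≠ b' := by
      rintro rfl
      exact hne ((sys G).isV_unique hx hw)
    exact ⟨b', hw.ne, e2, hw.yb_pos, (sys G).diff_same_a hx hw e2⟩
  · have e2 : b = b' := ((sys G).share_of_extreme hx hw hseg).resolve_left e1
    subst e2
    exact ⟨a', e1, hw.ne.symm, hw.ya_pos, (sys G).diff_same_b hx hw e1⟩

/-- Vertices of an increasing path with given indices. -/
lemma exists_path (G : δ.Good) (k : ℕ) (a b : ℕ → Fin 8) (h : PathOK δ k a b) :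
    ∃ x : ℕ → E 6, (∀ t ≤ k, IsV δ.y δ.XR (x t) (a t) (b t)) ∧
      ∀ t < k, Adj (body δ.y) (x t) (x (t + 1)) ∧
        coordForm 5 (x t) < coordForm 5 (x (t + 1)) ∧ a t ≠ entering a b t ∧
        b t ≠ entering a b t ∧ 0 < δ.y (entering a b t) (x (t + 1)) ∧
        ∀ i, δ.y i (x (t + 1)) - δ.y i (x t) =
          δ.y (entering a b t) (x (t + 1)) / (δ.XR (b t) - δ.XR (a t)) *
            dirv δ.XR (a t) (b t) (entering a b t) i := by
  obtain ⟨h1, h2⟩ := h
  have hV : ∀ t, ∃ x, t ≤ k → IsV δ.y δ.XR x (a t) (b t) := by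
    intro t
    by_cases ht : t ≤ k
    · have := h1 ⟨t, by omega⟩
      obtain ⟨x, hx⟩ := (sys G).exists_isV (a := a t) (b := b t)
        (by unfold XR; exact_mod_cast this.1) (by unfold XR; exact_mod_cast this.2)
      exact ⟨x, fun _ => hx⟩
    · exact ⟨0, fun h => absurd h ht⟩
  choose x hx using hV
  refine ⟨x, hx, fun t ht => ?_⟩
  have hv := hx t (by omega)
  have hw := hx (t + 1) (by omega)
  have hlt := sub_pos.2 hv.lt
  have hf : (0 : ℝ) < (det3Z δ.X (δ.P 5) (a t) (b t) (entering a b t) : ℝ) := by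
    exact_mod_cast (h2 ⟨t, ht⟩).2
  have hinc : ∀ (j : Fin 8), j = entering a b t → a t ≠ j → b t ≠ j → 0 < δ.y j (x (t + 1)) →
      (∀ i, δ.y i (x (t + 1)) - δ.y i (x t) =
        δ.y j (x (t + 1)) / (δ.XR (b t) - δ.XR (a t)) * dirv δ.XR (a t) (b t) j i) →
      coordForm 5 (x t) < coordForm 5 (x (t + 1)) := by
    intro j hj n1 n2 hp hd
    subst hj
    have hsl := lin_diff (h := fun i => (δ.P 5 i : ℝ)) (ℓ := coordForm 5)
      (fun x => (coord G 5 x).symm) hv.ne n1 n2 hd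
    rw [det3_cast] at hsl
    have := mul_pos (div_pos hp hlt) hf
    linarith
  rcases (h2 ⟨t, ht⟩).1 with ⟨e1, e2⟩ | ⟨e1, e2⟩
  · simp only at e1 e2
    have he : entering a b t = b (t + 1) := by rw [entering, if_pos e1]
    rw [← e1] at hw
    have hd := (sys G).diff_same_a hv hw e2
    refine ⟨⟨(sys G).extreme_of_isV hv, (sys G).extreme_of_isV hw, ?_,
      (sys G).extreme_of_same_a hv hw e2⟩, hinc _ he.symm hw.ne e2 hw.yb_pos hd, ?_⟩
    · intro e
      rw [e] at hv
      exact e2 (Sys.ind_unique hv hw).2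
    · rw [he]
      exact ⟨hw.ne, e2, hw.yb_pos, hd⟩
  · simp only at e1 e2
    have he : entering a b t = a (t + 1) := by rw [entering, if_neg e1]
    rw [← e2] at hw
    have hd := (sys G).diff_same_b hv hw e1
    refine ⟨⟨(sys G).extreme_of_isV hv, (sys G).extreme_of_isV hw, ?_,
      (sys G).extreme_of_same_b hv hw e1⟩, hinc _ he.symm e1 hw.ne.symm hw.ya_pos hd, ?_⟩
    · intro e
      rw [e] at hv
      exact e1 (Sys.ind_unique hv hw).1
    · rw [he]
      exact ⟨e1, hw.ne.symm, hw.ya_pos, hd⟩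

theorem exists_steep (G : δ.Good) (k : ℕ) (a b : ℕ → Fin 8) (h : SteepOK δ k a b) :
    ∃ x, IsSteepPath (body δ.y) (coordForm 5) k x := by
  obtain ⟨h12, h3⟩ := h
  obtain ⟨x, hx, hstep⟩ := exists_path G k a b h12
  refine ⟨x, (sys G).extreme_of_isV (hx 0 (by omega)), fun t ht => ?_⟩
  obtain ⟨hadj, hlt, n1, n2, hp, hd⟩ := hstep t ht
  have hv := hx t (by omega)
  refine ⟨hadj, hlt, ?_⟩
  intro w hw
  obtain ⟨j, m1, m2, hp', hd'⟩ := nbr_data G hv hw
  have hXlt := sub_pos.2 hv.lt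
  have e1 := slope G (div_pos hp' hXlt) hv.ne m1 m2 hd' 5
  have e2 := slope G (div_pos hp hXlt) hv.ne n1 n2 hd 5
  change (w 5 - x t 5) / ‖w - x t‖ ≤ (x (t + 1) 5 - x t 5) / ‖x (t + 1) - x t‖
  rw [e1, e2]
  obtain ⟨hN, hle⟩ := h3 ⟨t, ht⟩ j m1 m2
  exact slope_le hN (h3 ⟨t, ht⟩ _ n1 n2).1 (h12.2 ⟨t, ht⟩).2 hle

end Data

/-- The example. -/
def steepData : Data where
  X := ![-549, -115, -1, -1, 1, 27, 383, 643]
  P := ![![0, 0, 0, 0, 0, 0, 1, 0], ![0, -17, -1, 0, 0, -11, 3, 7], ![0, 0, 0, 0, 1, -1, 0, 0],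
    ![45, 0, 0, -31, -25, 2, 29, 43], ![-38, 0, 3, -39, 4, 0, -2, 1],
    ![-71, -11, 0, -777, -116, 8, 58, 94]]
  B0 := ![577306811, -1198454531, 1231833500, -271197884, 1866666139, 1866666139, 0, 198776286]
  B1 := ![602745, -4714885, -27168940, -1159440, 13376225, 13376225, 0, 5688070]
  B := ![![-549289344, 22163534, 349560468, -47823904, -184846844, 11928278],
    ![367607044, -274033414, 1871514072, 189368264, 306568744, -24479198],
    ![1310285360, 302984260, -2491383020, 460484340, 1105192760, -72224620],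
    ![203569076, -154856, -302244052, 48452096, 89961196, -12293612],
    ![-1358847836, -10909174, 2062889912, -329324416, -621399696, 46714202],
    ![-1358847836, -10909174, -2208706548, -329324416, -621399696, 46714202],
    ![4271596460, 0, 0, 0, 0, 0],
    ![-2886072924, -29141176, 718369168, 8168036, -74076464, 3640748]]
  D := 4271596460

/-- Index functions of the steep path. -/
def steepA (t : ℕ) : Fin 8 := [3, 3, 3, 3, 0, 1, 2, 2, 2, 2, 0, 1, 1, 1, 0, 0].getD t 0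

/-- Index functions of the steep path. -/
def steepB (t : ℕ) : Fin 8 := [7, 6, 5, 4, 4, 4, 4, 7, 6, 5, 5, 5, 7, 6, 6, 7].getD t 0

theorem steepData_good : steepData.Good where
  D0 := by decide +kernel
  X0 := by decide +kernel
  s0 := by decide +kernel
  s1 := by decide +kernel
  x0 := by decide +kernel
  x1 := by decide +kernel
  p0 := by decide +kernel
  p1 := by decide +kernel
  inv := by decide +kernel
  fv := by decide +kernel

theorem steepData_ok : Data.SteepOK steepData 15 steepA steepB := by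
  unfold Data.SteepOK Data.PathOK
  decide +kernel

end Pool.Agent.Lib.MP_dd1a29_co
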