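import Pool.Agent.Lib.MP_dd1a29_co.Normal
import Pool.Agent.Lib.MP_dd1a29_co.Core
import Pool.Agent.Lib.MP_dd1a29_co.CertData

/-!
Upper bounds: on a simple 6-polytope with 8 facets, increasing paths have at most 15 steps and
Dantzig paths have at most 14 steps.
-/

namespace Pool.Agent.Lib.MP_dd1a29_co

open Finset Module

/-- Labels in order of first visit. -/
lemma exists_labels {β : Type*} [DecidableEq β] (a : ℕ → β) (N m : ℕ)
    (hcard : ((range N).image a).card = m) :
    ∃ (α : ℕ → ℕ) (la : ℕ → β), (∀ t < N, α t < m) ∧ (∀ t < N, la (α t) = a t) ∧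
      (∀ s < N, ∀ t < N, a s = a t → α s = α t) ∧ (∀ i < m, ∃ t < N, α t = i) ∧
      (∀ t < N, α t ≠ 0 → ∃ s < t, α s + 1 = α t) := by
  classical
  set T : Finset ℕ := (range N).filter (fun t => ∀ s < t, a s ≠ a t) with hT
  have hfirst : ∀ t < N, ∃ s ∈ T, s ≤ t ∧ a s = a t := by
    intro t ht
    have hex : ∃ s, a s = a t := ⟨t, rfl⟩
    refine ⟨Nat.find hex, ?_, Nat.find_min' hex rfl, Nat.find_spec hex⟩
    rw [hT, mem_filter, mem_range]
    refine ⟨(Nat.find_min' hex rfl).trans_lt ht, fun s hs he => ?_⟩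
    exact Nat.find_min hex hs (he.trans (Nat.find_spec hex))
  have hTinj : Set.InjOn a T := by
    intro s hs t ht hst
    have hs' := (mem_filter.1 (mem_coe.1 hs)).2
    have ht' := (mem_filter.1 (mem_coe.1 ht)).2
    rcases lt_trichotomy s t with h | h | h
    · exact absurd hst (ht' s h)
    · exact h
    · exact absurd hst.symm (hs' t h)
  have hTimg : T.image a = (range N).image a := by
    apply Finset.Subset.antisymm
    · exact image_subset_image (filter_subset _ _)
    · intro b hb
      obtain ⟨t, ht, rfl⟩ := mem_image.1 hb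
      obtain ⟨s, hs, -, he⟩ := hfirst t (mem_range.1 ht)
      exact mem_image.2 ⟨s, hs, he⟩
  have hTcard : T.card = m := by
    rw [← hcard, ← hTimg, card_image_of_injOn hTinj]
  set e := T.orderEmbOfFin hTcard with he
  have he_mem : ∀ i, e i ∈ T := fun i => T.orderEmbOfFin_mem hTcard i
  have he_surj : ∀ s ∈ T, ∃ i, e i = s := by
    intro s hs
    have : s ∈ Set.range (T.orderEmbOfFin hTcard) := by
      rw [Finset.range_orderEmbOfFin]; exact hs
    exact this
  have hidx : ∀ t, ∃ i : ℕ, t < N → ∃ h : i < m, e ⟨i, h⟩ ≤ t ∧ a (e ⟨i, h⟩) = a t := by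
    intro t
    by_cases ht : t < N
    · obtain ⟨s, hs, h1, h2⟩ := hfirst t ht
      obtain ⟨i, hi⟩ := he_surj s hs
      exact ⟨i.1, fun _ => ⟨i.2, by rw [hi]; exact h1, by rw [hi]; exact h2⟩⟩
    · exact ⟨0, fun h => absurd h ht⟩
  choose α hα using hidx
  have huniq : ∀ (i : Fin m) (t : ℕ), t < N → a (e i) = a t → α t = i.1 := by
    intro i t ht h
    obtain ⟨h1, h2, h3⟩ := hα t ht
    have := hTinj (he_mem i) (he_mem ⟨α t, h1⟩) (h.trans h3.symm)
    have := e.injective this
    rw [this]
  refine ⟨α, fun i => if h : i < m then a (e ⟨i, h⟩) else a 0, ?_, ?_, ?_, ?_, ?_⟩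
  · intro t ht; exact (hα t ht).1
  · intro t ht
    obtain ⟨h1, h2, h3⟩ := hα t ht
    simp only [h1, dif_pos]
    exact h3
  · intro s hs t ht hst
    obtain ⟨h1, h2, h3⟩ := hα t ht
    exact huniq ⟨α t, h1⟩ s hs (h3.trans hst.symm)
  · intro i hi
    have h1 := mem_range.1 (mem_filter.1 (he_mem ⟨i, hi⟩)).1
    exact ⟨e ⟨i, hi⟩, h1, huniq ⟨i, hi⟩ _ h1 rfl⟩
  · intro t ht h0
    obtain ⟨h1, h2, h3⟩ := hα t ht
    have hlt : α t - 1 < m := by omega
    have hN := mem_range.1 (mem_filter.1 (he_mem ⟨α t - 1, hlt⟩)).1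
    refine ⟨e ⟨α t - 1, hlt⟩, ?_, ?_⟩
    · have : e ⟨α t - 1, hlt⟩ < e ⟨α t, h1⟩ := by
        apply e.strictMono
        rw [Fin.mk_lt_mk]
        omega
      omega
    · rw [huniq ⟨α t - 1, hlt⟩ _ hN rfl]
      simp only
      omega

/-- Linear forms in terms of the coordinates. -/
lemma exists_coeff {F : Type*} [AddCommGroup F] [Module ℝ F] {n : ℕ}
    {y : Fin n → (F →ᵃ[ℝ] ℝ)} {X : Fin n → ℝ} (S : Sys y X) (ℓ : F →ₗ[ℝ] ℝ) :
    ∃ h : Fin n → ℝ, ∀ x, ℓ x = ∑ i, h i * y i x := by
  let L : F →ₗ[ℝ] (Fin n → ℝ) := LinearMap.pi fun i => (y i).linear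
  have hL : ∀ v i, L v i = (y i).linear v := fun v i => rfl
  have hy : ∀ v i, y i v = y i 0 + (y i).linear v := by
    intro v i
    have := (y i).map_vadd 0 v
    simp only [vadd_eq_add, add_zero] at this
    rw [this, add_comm]
  have hker : LinearMap.ker L = ⊥ := by
    rw [LinearMap.ker_eq_bot']
    intro v hv
    apply S.inj
    intro i
    have h1 : L v i = 0 := by rw [hv]; rfl
    rw [hy, ← hL, h1, add_zero]
  obtain ⟨g, hg⟩ := L.exists_leftInverse_of_injective hker
  set κ := - ∑ i, y i 0 * ℓ (g (Pi.single i 1)) with hκ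
  refine ⟨fun i => ℓ (g (Pi.single i 1)) + κ, fun x => ?_⟩
  have h1 : x = g (L x) := by
    have := LinearMap.congr_fun hg x
    simpa using this.symm
  have h2 : L x = ∑ i, (y i x - y i 0) • (Pi.single i 1 : Fin n → ℝ) := by
    funext j
    simp only [Finset.sum_apply, Pi.smul_apply, Pi.single_apply, smul_eq_mul, mul_ite, mul_one,
      mul_zero, Finset.sum_ite_eq, Finset.mem_univ, if_true]
    rw [hL, hy x j]; ring
  have h3 : ℓ x = ∑ i, (y i x - y i 0) * ℓ (g (Pi.single i 1)) := by
    conv_lhs => rw [h1, h2]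
    simp only [map_sum, map_smul, smul_eq_mul]
  rw [h3]
  have h4 : ∀ i, (ℓ (g (Pi.single i 1)) + κ) * y i x =
      y i x * ℓ (g (Pi.single i 1)) + κ * y i x := fun i => by ring
  simp only [h4]
  rw [Finset.sum_add_distrib, ← Finset.mul_sum, S.sum1, mul_one, hκ]
  simp only [sub_mul]
  rw [Finset.sum_sub_distrib]
  ring

lemma dirv_lin {n : ℕ} (X h : Fin n → ℝ) {a b k : Fin n} (hab : a ≠ b) (hak : a ≠ k)
    (hbk : b ≠ k) : ∑ i, h i * dirv X a b k i = det3 X h a b k := by
  rw [sum_eq_three hab hak hbk (fun i h1 h2 h3 => by rw [dirv_0 X h1 h2 h3, mul_zero]),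
    dirv_a X hak, dirv_b X hab hbk, dirv_k, det3]
  ring

/-- Increase of a linear form along a direction `dirv`. -/
lemma lin_diff {F : Type*} [AddCommGroup F] [Module ℝ F] {n : ℕ}
    {y : Fin n → (F →ᵃ[ℝ] ℝ)} {X h : Fin n → ℝ} {ℓ : F →ₗ[ℝ] ℝ}
    (hl : ∀ x, ℓ x = ∑ i, h i * y i x) {x w : F} {a b k : Fin n} {s : ℝ}
    (hab : a ≠ b) (hak : a ≠ k) (hbk : b ≠ k)
    (hd : ∀ i, y i w - y i x = s * dirv X a b k i) : ℓ w - ℓ x = s * det3 X h a b k := by
  rw [hl, hl, ← Finset.sum_sub_distrib, ← dirv_lin X h hab hak hbk, Finset.mul_sum]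
  apply Finset.sum_congr rfl
  intro i _
  rw [← mul_sub, hd]; ring

/-- Counting: the indices of the vertices of an increasing path. -/
lemma card_le {n : ℕ} {X : Fin n → ℝ} {a b : ℕ → Fin n} {N : ℕ}
    (ha : ∀ t < N, X (a t) < 0) (hb : ∀ t < N, 0 < X (b t))
    (hinj : ∀ s < N, ∀ t < N, a s = a t → b s = b t → s = t) :
    N ≤ ((range N).image a).card * ((range N).image b).card ∧
      ((range N).image a).card + ((range N).image b).card ≤ n := by
  classical
  constructor
  · have : ((range N).image (fun t => (a t, b t))).card = N := by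
      rw [card_image_of_injOn, card_range]
      intro s hs t ht hst
      simp only [Prod.mk.injEq] at hst
      exact hinj s (by simpa using hs) t (by simpa using ht) hst.1 hst.2
    rw [← card_product]
    calc N = ((range N).image (fun t => (a t, b t))).card := this.symm
      _ ≤ _ := by
        apply card_le_card
        intro p hp
        obtain ⟨t, ht, rfl⟩ := mem_image.1 hp
        exact mem_product.2 ⟨mem_image_of_mem _ ht, mem_image_of_mem _ ht⟩
  · have hdisj : Disjoint ((range N).image a) ((range N).image b) := by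
      rw [Finset.disjoint_left]
      intro i hi hi'
      obtain ⟨s, hs, rfl⟩ := mem_image.1 hi
      obtain ⟨t, ht, he⟩ := mem_image.1 hi'
      have h1 := ha s (mem_range.1 hs)
      have h2 := hb t (mem_range.1 ht)
      rw [he] at h2
      linarith
    rw [← card_union_of_disjoint hdisj]
    calc _ ≤ (Finset.univ : Finset (Fin n)).card := card_le_card (subset_univ _)
      _ = n := by simp

variable {φ : Fin 8 → (E 6 →ᵃ[ℝ] ℝ)}

lemma body_eq {c : Fin 8 → ℝ} (hc : ∀ i, 0 < c i) : pos (fun i => c i • φ i) = body φ := by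
  ext x
  simp only [pos, body, Set.mem_ofPred_eq, AffineMap.coe_smul, Pi.smul_apply, smul_eq_mul]
  exact forall_congr' fun i => mul_nonneg_iff_of_pos_left (hc i)

/-- The index functions of an increasing path. -/
lemma exists_indices {X : Fin 8 → ℝ} {y : Fin 8 → (E 6 →ᵃ[ℝ] ℝ)} (S : Sys y X)
    {ℓ : E 6 →ₗ[ℝ] ℝ} {k : ℕ} {x : ℕ → E 6} (h0 : x 0 ∈ (pos y).extremePoints ℝ)
    (hs : ∀ i < k, Adj (pos y) (x i) (x (i + 1)) ∧ ℓ (x i) < ℓ (x (i + 1))) :
    ∃ a b : ℕ → Fin 8, (∀ t ≤ k, IsV y X (x t) (a t) (b t)) ∧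
      (∀ s t, s < t → t ≤ k → ℓ (x s) < ℓ (x t)) ∧
      (∀ s ≤ k, ∀ t ≤ k, a s = a t → b s = b t → s = t) := by
  have hext : ∀ t ≤ k, x t ∈ (pos y).extremePoints ℝ := by
    intro t ht
    cases t with
    | zero => exact h0
    | succ t => exact (hs t (by omega)).1.2.1
  have hV : ∀ t, ∃ a b, t ≤ k → IsV y X (x t) a b := by
    intro t
    by_cases ht : t ≤ k
    · obtain ⟨a, b, h⟩ := S.isV_of_extreme (hext t ht)
      exact ⟨a, b, fun _ => h⟩
    · exact ⟨0, 0, fun h => absurd h ht⟩
  choose a b hab using hV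
  have hmono : ∀ s t, s < t → t ≤ k → ℓ (x s) < ℓ (x t) := by
    intro s t hst htk
    induction t with
    | zero => omega
    | succ t ih =>
      rcases Nat.lt_or_ge s t with h | h
      · exact (ih h (by omega)).trans (hs t (by omega)).2
      · have : s = t := by omega
        rw [this]; exact (hs t (by omega)).2
  refine ⟨a, b, hab, hmono, ?_⟩
  intro s hs' t ht' h1 h2
  have hv := hab s hs'
  rw [h1, h2] at hv
  have he := S.isV_unique hv (hab t ht')
  rcases lt_trichotomy s t with h | h | h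
  · have := hmono s t h ht'; rw [he] at this; exact absurd this (lt_irrefl _)
  · exact h
  · have := hmono t s h hs'; rw [he] at this; exact absurd this (lt_irrefl _)

/-- Increasing paths have at most 15 steps. -/
theorem inc_le (h : IsSimplePolytope φ) {ℓ : E 6 →ₗ[ℝ] ℝ} {k : ℕ} {x : ℕ → E 6}
    (h0 : x 0 ∈ (body φ).extremePoints ℝ)
    (hs : ∀ i < k, Adj (body φ) (x i) (x (i + 1)) ∧ ℓ (x i) < ℓ (x (i + 1))) : k ≤ 15 := by
  obtain ⟨c, X, hc, S⟩ := exists_sys h (by norm_num)
  rw [← body_eq hc] at h0 hs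
  obtain ⟨a, b, hab, -, hinj⟩ := exists_indices S h0 hs
  obtain ⟨h1, h2⟩ := card_le (X := X) (a := a) (b := b) (N := k + 1)
    (fun t ht => (hab t (by omega)).ha) (fun t ht => (hab t (by omega)).hb)
    (fun s hs t ht => hinj s (by omega) t (by omega))
  set p := ((range (k + 1)).image a).card
  set q := ((range (k + 1)).image b).card
  have : p * q ≤ 16 := by
    nlinarith [sq_nonneg ((p : ℤ) - q), h2]
  omega

/-- Dantzig paths have at most 14 steps. -/
theorem simplex_le (h : IsSimplePolytope φ) {ℓ : E 6 →ₗ[ℝ] ℝ} {k : ℕ} {x : ℕ → E 6}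
    (hp : IsSimplexPath φ ℓ k x) : k ≤ 14 := by
  by_contra hk
  obtain ⟨c, X, hc, S⟩ := exists_sys h (by norm_num)
  obtain ⟨h0, hs⟩ := hp
  obtain ⟨hh, hl⟩ := exists_coeff S ℓ
  have hbody := body_eq (φ := φ) hc
  obtain ⟨a, b, hab, hmono, hinj⟩ := exists_indices (ℓ := ℓ) (k := 15) (x := x) S
    (by rw [hbody]; exact h0)
    (fun i hi => by rw [hbody]; exact ⟨(hs i (by omega)).1, (hs i (by omega)).2.1⟩)
  obtain ⟨h1, h2⟩ := card_le (X := X) (a := a) (b := b) (N := 16)
    (fun t ht => (hab t (by omega)).ha) (fun t ht => (hab t (by omega)).hb)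
    (fun s hs t ht => hinj s (by omega) t (by omega))
  have hp4 : ((range 16).image a).card = 4 ∧ ((range 16).image b).card = 4 := by
    set p := ((range 16).image a).card
    set q := ((range 16).image b).card
    have hp8 : p ≤ 8 := by omega
    have hq8 : q ≤ 8 := by omega
    interval_cases p <;> interval_cases q <;> omega
  obtain ⟨α, la, a1, a2, a3, a4, a5⟩ := exists_labels a 16 4 hp4.1
  obtain ⟨β, lb, b1, b2, b3, b4, b5⟩ := exists_labels b 16 4 hp4.2
  have hla : ∀ i < 4, X (la i) < 0 := by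
    intro i hi
    obtain ⟨t, ht, rfl⟩ := a4 i hi
    rw [a2 t ht]; exact (hab t (by omega)).ha
  have hlb : ∀ i < 4, 0 < X (lb i) := by
    intro i hi
    obtain ⟨t, ht, rfl⟩ := b4 i hi
    rw [b2 t ht]; exact (hab t (by omega)).hb
  have hlai : ∀ i < 4, ∀ j < 4, la i = la j → i = j := by
    intro i hi j hj hij
    obtain ⟨t, ht, rfl⟩ := a4 i hi
    obtain ⟨s, hs, rfl⟩ := a4 j hj
    rw [a2 t ht, a2 s hs] at hij
    exact a3 t ht s hs hij
  have hlbi : ∀ i < 4, ∀ j < 4, lb i = lb j → i = j := by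
    intro i hi j hj hij
    obtain ⟨t, ht, rfl⟩ := b4 i hi
    obtain ⟨s, hs, rfl⟩ := b4 j hj
    rw [b2 t ht, b2 s hs] at hij
    exact b3 t ht s hs hij
  let D : Fin 8 → Fin 8 → Fin 8 → ℝ := fun i j k => c i * c j * c k * det3 X hh i j k
  let U : ℕ → ℕ → ℕ → ℝ := fun q p p' => D (la p) (lb q) (la p')
  let W : ℕ → ℕ → ℕ → ℝ := fun p q q' => D (la p) (lb q) (lb q')
  let σ : ℕ → ℕ := fun t => 4 * α t + β t
  have σd : ∀ t < 16, σ t / 4 = α t := by
    intro t ht
    have := b1 t ht
    change (4 * α t + β t) / 4 = α t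
    omega
  have σm : ∀ t < 16, σ t % 4 = β t := by
    intro t ht
    have := b1 t ht
    change (4 * α t + β t) % 4 = β t
    omega
  -- the entering variable formula
  have grad : ∀ (p w : E 6) (i j k : Fin 8), IsV (fun i => c i • φ i) X p i j → i ≠ k → j ≠ k →
      (∀ l, (c l • φ l) w - (c l • φ l) p =
        (c k • φ k) w / (X j - X i) * dirv X i j k l) → 0 < (c k • φ k) w →
      (ℓ w - ℓ p) / φ k w = c k * det3 X hh i j k / (X j - X i) := by
    intro p w i j k hv hik hjk hd hpos
    rw [lin_diff hl hv.ne hik hjk hd]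
    have hpos' : 0 < c k * φ k w := hpos
    have hφ : 0 < φ k w := (mul_pos_iff_of_pos_left (hc k)).1 hpos'
    change c k * φ k w / (X j - X i) * det3 X hh i j k / φ k w = _
    field_simp
  -- the neighbours
  have nbr : ∀ t < 16, ∀ q < 16, adjB (σ t) q = true → ∃ (w : E 6) (k : Fin 8),
      a t ≠ k ∧ b t ≠ k ∧ Adj (body φ) (x t) w ∧ 0 < (c k • φ k) w ∧
      (c k • φ k) (x t) = 0 ∧
      (∀ l, (c l • φ l) w - (c l • φ l) (x t) =
        (c k • φ k) w / (X (b t) - X (a t)) * dirv X (a t) (b t) k l) ∧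
      br U W (σ t) q = D (a t) (b t) k ∧
      IsV (fun i => c i • φ i) X w (la (q / 4)) (lb (q % 4)) := by
    intro t ht q hq hadj
    have hv := hab t (by omega)
    have hqa : X (la (q / 4)) < 0 := hla _ (by omega)
    have hqb : 0 < X (lb (q % 4)) := hlb _ (by omega)
    obtain ⟨w, hw⟩ := S.exists_isV hqa hqb
    unfold adjB at hadj
    rw [σd t ht, σm t ht] at hadj
    by_cases hc1 : α t = q / 4
    · have hc2 : β t ≠ q % 4 := by
        intro hc2; simp [hc1, hc2] at hadj
      have hne : b t ≠ lb (q % 4) := by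
        intro e
        apply hc2
        rw [← b2 t ht] at e
        exact hlbi _ (b1 t ht) _ (by omega) e
      have hla' : la (q / 4) = a t := by rw [← hc1, a2 t ht]
      rw [hla'] at hw
      refine ⟨w, lb (q % 4), hw.ne, hne, ?_, hw.yb_pos, hv.y0 _ hw.ne.symm hne.symm, ?_, ?_, ?_⟩
      · rw [← hbody]
        refine ⟨S.extreme_of_isV hv, S.extreme_of_isV hw, ?_, S.extreme_of_same_a hv hw hne⟩
        intro e
        rw [e] at hv
        exact hne (Sys.ind_unique hv hw).2
      · exact S.diff_same_a hv hw hne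
      · unfold br
        rw [σd t ht, σm t ht, if_pos hc1]
        change D (la (α t)) (lb (β t)) (lb (q % 4)) = _
        rw [a2 t ht, b2 t ht]
      · rw [hla']; exact hw
    · have hc2 : β t = q % 4 := by
        by_contra hc2; simp [hc1, hc2] at hadj
      have hne : a t ≠ la (q / 4) := by
        intro e
        apply hc1
        rw [← a2 t ht] at e
        exact hlai _ (a1 t ht) _ (by omega) e
      have hlb' : lb (q % 4) = b t := by rw [← hc2, b2 t ht]
      rw [hlb'] at hw
      refine ⟨w, la (q / 4), hne, hw.ne.symm, ?_, hw.ya_pos, hv.y0 _ hne.symm hw.ne, ?_, ?_, ?_⟩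
      · rw [← hbody]
        refine ⟨S.extreme_of_isV hv, S.extreme_of_isV hw, ?_, S.extreme_of_same_b hv hw hne⟩
        intro e
        rw [e] at hv
        exact hne (Sys.ind_unique hv hw).1
      · exact S.diff_same_b hv hw hne
      · unfold br
        rw [σd t ht, σm t ht, if_neg hc1]
        change D (la (α t)) (lb (β t)) (la (q / 4)) = _
        rw [a2 t ht, b2 t ht]
      · rw [hlb']; exact hw
  have hDpos : ∀ i j k, 0 < det3 X hh i j k → 0 < D i j k := fun i j k hd =>
    mul_pos (mul_pos (mul_pos (hc i) (hc j)) (hc k)) hd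
  have hadjσ : ∀ t < 15, adjB (σ t) (σ (t + 1)) = true := by
    intro t ht
    have hadj := (hs t (by omega)).1
    rw [← hbody] at hadj
    have h1 := hab t (by omega)
    have h2 := hab (t + 1) (by omega)
    have hsh := S.share_of_extreme h1 h2 hadj.2.2.2
    have hne : ¬ (a t = a (t + 1) ∧ b t = b (t + 1)) := by
      rintro ⟨e1, e2⟩
      have := hinj t (by omega) (t + 1) (by omega) e1 e2
      omega
    unfold adjB
    rw [σd t (by omega), σm t (by omega), σd (t + 1) (by omega), σm (t + 1) (by omega)]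
    have hα : α t = α (t + 1) ↔ a t = a (t + 1) :=
      ⟨fun e => by rw [← a2 t (by omega), ← a2 (t + 1) (by omega), e],
        fun e => a3 t (by omega) (t + 1) (by omega) e⟩
    have hβ : β t = β (t + 1) ↔ b t = b (t + 1) :=
      ⟨fun e => by rw [← b2 t (by omega), ← b2 (t + 1) (by omega), e],
        fun e => b3 t (by omega) (t + 1) (by omega) e⟩
    rcases hsh with e | e
    · have e' : b t ≠ b (t + 1) := fun e' => hne ⟨e, e'⟩
      have q1 : α t = α (t + 1) := hα.2 e
      have q2 : β t ≠ β (t + 1) := fun h => e' (hβ.1 h)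
      simp [q1, q2]
    · have e' : a t ≠ a (t + 1) := fun e' => hne ⟨e', e⟩
      have q1 : β t = β (t + 1) := hβ.2 e
      have q2 : α t ≠ α (t + 1) := fun h => e' (hα.1 h)
      simp [q1, q2]
  have H : Ham U W σ := by
    refine ⟨?_, ?_, ?_, ?_, ?_, ?_, ?_, ?_, ?_, ?_, ?_⟩
    · intro q p p'
      simp only [U, D, det3]; ring
    · intro p q q'
      simp only [W, D, det3]; ring
    · intro q q' p1 p2 p3
      simp only [U, W, D, det3]; ring
    · intro p p' q1 q2 q3
      simp only [U, W, D, det3]; ring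
    · intro t ht
      have := a1 t (by omega)
      have := b1 t (by omega)
      change 4 * α t + β t < 16
      omega
    · intro s t hs ht hst
      have e1 := σd s (by omega)
      have e2 := σd t (by omega)
      have e3 := σm s (by omega)
      have e4 := σm t (by omega)
      rw [hst] at e1 e3
      apply hinj s hs t ht
      · rw [← a2 s (by omega), ← a2 t (by omega), ← e1, ← e2]
      · rw [← b2 s (by omega), ← b2 t (by omega), ← e3, ← e4]
    · exact hadjσ
    · intro s t hst ht hadj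
      obtain ⟨w, k, h1, h2, -, h4, -, h6, h7, h8⟩ := nbr s (by omega) (σ t) (by
        have := a1 t (by omega)
        have := b1 t (by omega)
        change 4 * α t + β t < 16
        omega) hadj
      rw [h7]
      apply hDpos
      rw [σd t (by omega), σm t (by omega), a2 t (by omega), b2 t (by omega)] at h8
      have hwx : w = x t := S.isV_unique h8 (hab t ht)
      have hinc := hmono s t hst ht
      rw [← hwx] at hinc
      have hd := lin_diff hl (hab s (by omega)).ne h1 h2 h6
      have hpos : 0 < (c k • φ k) w / (X (b s) - X (a s)) :=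
        div_pos h4 (sub_pos.2 (hab s (by omega)).lt)
      have : 0 < (c k • φ k) w / (X (b s) - X (a s)) * det3 X hh (a s) (b s) k := by
        rw [← hd]; linarith
      exact (mul_pos_iff_of_pos_left hpos).1 this
    · intro t ht q hq hadj
      have hadj' := hadjσ t ht
      obtain ⟨w, k, h1, h2, h3, h4, h5, h6, h7, h8⟩ := nbr t (by omega) q hq hadj
      obtain ⟨w', k', h1', h2', h3', h4', h5', h6', h7', h8'⟩ := nbr t (by omega) (σ (t + 1)) (by
        have := a1 (t + 1) (by omega)
        have := b1 (t + 1) (by omega)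
        change 4 * α (t + 1) + β (t + 1) < 16
        omega) hadj'
      rw [σd (t + 1) (by omega), σm (t + 1) (by omega), a2 (t + 1) (by omega),
        b2 (t + 1) (by omega)] at h8'
      have hwx : w' = x (t + 1) := S.isV_unique h8' (hab (t + 1) (by omega))
      subst hwx
      have hφ0 : ∀ k, ∀ z : E 6, (c k • φ k) z = 0 → φ k z = 0 := by
        intro k z hz
        have hz' : c k * φ k z = 0 := hz
        rcases mul_eq_zero.1 hz' with e | e
        · exact absurd e (hc k).ne'
        · exact e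
      have hφp : ∀ k, ∀ z : E 6, 0 < (c k • φ k) z → 0 < φ k z := by
        intro k z hz
        have hz' : 0 < c k * φ k z := hz
        exact (mul_pos_iff_of_pos_left (hc k)).1 hz'
      have key := (hs t (by omega)).2.2 w h3 k k' (hφ0 k _ h5) (hφp k _ h4) (hφ0 k' _ h5')
        (hφp k' _ h4')
      rw [grad _ _ _ _ _ (hab t (by omega)) h1 h2 h6 h4,
        grad _ _ _ _ _ (hab t (by omega)) h1' h2' h6' h4',
        div_le_div_iff_of_pos_right (sub_pos.2 (hab t (by omega)).lt)] at key
      rw [h7, h7']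
      change c (a t) * c (b t) * c k * det3 X hh (a t) (b t) k ≤
        c (a t) * c (b t) * c k' * det3 X hh (a t) (b t) k'
      have hcc : 0 < c (a t) * c (b t) := mul_pos (hc _) (hc _)
      have := mul_le_mul_of_nonneg_left key hcc.le
      linarith
    · intro t ht h0
      rw [σd t (by omega)] at h0 ⊢
      obtain ⟨s, hs, he⟩ := a5 t (by omega) h0
      exact ⟨s, hs, by rw [σd s (by omega)]; exact he⟩
    · intro t ht h0
      rw [σm t (by omega)] at h0 ⊢
      obtain ⟨s, hs, he⟩ := b5 t (by omega) h0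
      exact ⟨s, hs, by rw [σm s (by omega)]; exact he⟩
  exact H.false_of_check _ CertData.ok

end Pool.Agent.Lib.MP_dd1a29_co
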